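import Mathlib

set_option autoImplicit false

open Set MeasureTheory intervalIntegral Filter Topology

namespace Pool.Agent.Results.MP_0f1375_an.FirstDerivative


/-- One step of Rolle's theorem for several zeros. -/
lemma rolle_step {N : ℕ} {h : ℝ → ℝ} (hh : Continuous h) (z : Fin (N + 1) → ℝ) (hz : StrictMono z)
    (h0 : ∀ i, h (z i) = 0) :
    ∃ w : Fin N → ℝ, StrictMono w ∧ (∀ i, deriv h (w i) = 0) ∧
      ∀ i, z i.castSucc < w i ∧ w i < z i.succ := by
  have key : ∀ i : Fin N, ∃ c ∈ Ioo (z i.castSucc) (z i.succ), deriv h c = 0 := by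
    intro i
    exact exists_deriv_eq_zero (hz (Fin.castSucc_lt_succ)) hh.continuousOn
      (by rw [h0, h0])
  choose w hw hw0 using key
  refine ⟨w, ?_, hw0, fun i => ⟨(hw i).1, (hw i).2⟩⟩
  intro i j hij
  have h1 : w i < z i.succ := (hw i).2
  have h2 : z i.succ ≤ z j.castSucc := hz.monotone (by
    rw [Fin.le_def]
    simp only [Fin.val_succ, Fin.val_castSucc]
    exact hij)
  exact h1.trans_le (h2.trans (hw j).1.le)

/-- Generalised Rolle: `m+2` zeros of `h` give two zeros of the `m`-th derivative. -/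
lemma rolle_iter (m : ℕ) : ∀ (h : ℝ → ℝ), ContDiff ℝ m h → ∀ z : Fin (m + 2) → ℝ, StrictMono z →
    (∀ i, h (z i) = 0) →
    ∃ ξ η, z 0 ≤ ξ ∧ ξ < η ∧ η ≤ z (Fin.last _) ∧ iteratedDeriv m h ξ = 0 ∧
      iteratedDeriv m h η = 0 := by
  induction m with
  | zero =>
    intro h _ z hz h0
    refine ⟨z 0, z 1, le_rfl, hz (by simp), le_rfl, ?_, ?_⟩
    · simp [h0]
    · simp [h0]
  | succ m ih =>
    intro h hh z hz h0
    obtain ⟨w, hw, hw0, hwz⟩ := rolle_step hh.continuous z hz h0
    have hd : ContDiff ℝ m (deriv h) := by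
      have : ContDiff ℝ ((m : WithTop ℕ∞) + 1) h := by exact_mod_cast hh
      exact (contDiff_succ_iff_deriv.1 this).2.2
    obtain ⟨ξ, η, h1, h2, h3, h4, h5⟩ := ih (deriv h) hd w hw hw0
    refine ⟨ξ, η, ?_, h2, ?_, ?_, ?_⟩
    · have := (hwz 0).1
      have e : (0 : Fin (m + 2)).castSucc = 0 := rfl
      rw [e] at this
      exact this.le.trans h1
    · have := (hwz (Fin.last _)).2
      exact h3.trans (by simpa using this.le)
    · rw [iteratedDeriv_succ']; exact h4
    · rw [iteratedDeriv_succ']; exact h5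

/-- The Finset version of `rolle_iter`. -/
lemma rolle_finset (m : ℕ) (h : ℝ → ℝ) (hh : ContDiff ℝ m h) (Z : Finset ℝ) (hZ : Z.card = m + 2)
    {A B : ℝ} (hAB : ∀ z ∈ Z, z ∈ Icc A B) (h0 : ∀ z ∈ Z, h z = 0) :
    ∃ ξ ∈ Icc A B, ∃ η ∈ Icc A B, ξ < η ∧ iteratedDeriv m h ξ = 0 ∧
      iteratedDeriv m h η = 0 := by
  obtain ⟨ξ, η, h1, h2, h3, h4, h5⟩ := rolle_iter m h hh (Z.orderEmbOfFin hZ)
    (OrderEmbedding.strictMono _) (fun i => h0 _ (Z.orderEmbOfFin_mem hZ i))
  have a0 := hAB _ (Z.orderEmbOfFin_mem hZ 0)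
  have a1 := hAB _ (Z.orderEmbOfFin_mem hZ (Fin.last _))
  exact ⟨ξ, ⟨a0.1.trans h1, (h2.le.trans h3).trans a1.2⟩, η,
    ⟨a0.1.trans (h1.trans h2.le), h3.trans a1.2⟩, h2, h4, h5⟩

lemma iteratedDeriv_poly (m : ℕ) (P : Polynomial ℝ) :
    iteratedDeriv m (fun x => P.eval x) = fun x => ((Polynomial.derivative^[m]) P).eval x := by
  induction m generalizing P with
  | zero => simp
  | succ m ih =>
    rw [iteratedDeriv_succ']
    have : deriv (fun x => P.eval x) = fun x => (Polynomial.derivative P).eval x := by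
      ext x; simp
    rw [this, ih, Function.iterate_succ_apply]

/-- For a polynomial `P` of degree at most `m+1`, the `m`-th derivative is affine. -/
lemma poly_affine (m : ℕ) (P : Polynomial ℝ) (hP : P.natDegree ≤ m + 1) (x y : ℝ) :
    ((Polynomial.derivative^[m]) P).eval y - ((Polynomial.derivative^[m]) P).eval x =
      ((m + 1).factorial : ℝ) * P.coeff (m + 1) * (y - x) := by
  have hdeg : ((Polynomial.derivative^[m]) P).natDegree ≤ 1 := by
    refine (Polynomial.natDegree_iterate_derivative P m).trans ?_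
    omega
  have e := Polynomial.eq_X_add_C_of_natDegree_le_one hdeg
  have c1 : ((Polynomial.derivative^[m]) P).coeff 1 = ((m + 1).factorial : ℝ) * P.coeff (m + 1) := by
    rw [Polynomial.coeff_iterate_derivative]
    have : (1 + m).descFactorial m = (m + 1).factorial := by
      rw [add_comm 1 m]
      have := Nat.factorial_mul_descFactorial (n := m + 1) (k := m) (by omega)
      simpa using this
    rw [this, nsmul_eq_mul, add_comm 1 m]
  rw [e]
  simp only [Polynomial.eval_add, Polynomial.eval_mul, Polynomial.eval_C, Polynomial.eval_X]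
  rw [c1]; ring



/-- The pointwise Jensen estimate. -/
lemma jensen_pt {φ : ℝ → ℝ} (hφ : ConvexOn ℝ (Ici 0) φ) (hmono : MonotoneOn φ (Ici 0))
    (hcont : ContinuousOn φ (Ici 0)) (h0 : φ 0 = 0) {h : ℝ → ℝ} (hh : Continuous h)
    {a x : ℝ} (hax : a < x) {c d F : ℝ} (hcd : |c| + (x - a) * |d| ≤ 1)
    (hF : F = c * h x + d * ∫ t in a..x, h t) :
    φ |F| ≤ |c| * φ |h x| + |d| * ∫ t in a..x, φ |h t| := by
  have hxa : 0 < x - a := sub_pos.2 hax
  have habs : Continuous fun t => |h t| := continuous_abs.comp hh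
  have hφc : Continuous fun t => φ |h t| :=
    hcont.comp_continuous habs (fun t => abs_nonneg (h t))
  -- Jensen for the average
  have hav : φ (⨍ t in a..x, |h t|) ≤ ⨍ t in a..x, φ |h t| := by
    have huI : uIoc a x = Ioc a x := uIoc_of_le hax.le
    rw [huI]
    apply hφ.map_set_average_le hcont isClosed_Ici
    · simp [hax]
    · simp
    · exact Filter.Eventually.of_forall fun t => abs_nonneg (h t)
    · exact (habs.integrableOn_Icc).mono_set Ioc_subset_Icc_self
    · exact (hφc.integrableOn_Icc).mono_set Ioc_subset_Icc_self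
  rw [interval_average_eq_div, interval_average_eq_div] at hav
  set A := (∫ t in a..x, |h t|) / (x - a) with hA
  have hAnn : 0 ≤ A := div_nonneg (intervalIntegral.integral_nonneg hax.le
    fun t _ => abs_nonneg _) hxa.le
  have hI : |∫ t in a..x, h t| ≤ (x - a) * A := by
    have := intervalIntegral.abs_integral_le_integral_abs (f := h) (μ := volume) hax.le
    rw [hA]; field_simp; exact this
  have hF' : |F| ≤ |c| * |h x| + ((x - a) * |d|) * A := by
    rw [hF]
    refine (abs_add_le _ _).trans ?_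
    rw [abs_mul, abs_mul]
    have := mul_le_mul_of_nonneg_left hI (abs_nonneg d)
    nlinarith [this]
  have hc0 := abs_nonneg c
  have hd0 : 0 ≤ (x - a) * |d| := mul_nonneg hxa.le (abs_nonneg d)
  have hx0 : (0 : ℝ) ≤ |h x| := abs_nonneg _
  have hmem0 : (0 : ℝ) ∈ Ici (0 : ℝ) := mem_Ici.2 le_rfl
  have step1 : φ |F| ≤ φ (|c| * |h x| + ((x - a) * |d|) * A) :=
    hmono (abs_nonneg F) (by simp only [mem_Ici]; positivity) hF'
  have step2 : φ (|c| * |h x| + ((x - a) * |d|) * A) ≤
      |c| * φ |h x| + ((x - a) * |d|) * φ A := by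
    -- three point convexity
    by_cases hs : |c| + (x - a) * |d| = 0
    · have e1 : |c| = 0 := by linarith
      have e2 : (x - a) * |d| = 0 := by linarith
      rw [e1, e2]; simp [h0]
    · set s := |c| + (x - a) * |d| with hsdef
      have hs0 : 0 < s := lt_of_le_of_ne (by positivity) (Ne.symm hs)
      have c1 : φ ((|c| / s) * |h x| + ((x - a) * |d| / s) * A) ≤
          (|c| / s) * φ |h x| + ((x - a) * |d| / s) * φ A := by
        have := hφ.2 (show |h x| ∈ Ici (0 : ℝ) from hx0) (show A ∈ Ici (0 : ℝ) from hAnn)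
          (show 0 ≤ |c| / s by positivity) (show 0 ≤ (x - a) * |d| / s by positivity)
          (by rw [← add_div, ← hsdef]; exact div_self hs)
        simpa only [smul_eq_mul] using this
      have c2 := hφ.2 (show (|c| / s) * |h x| + ((x - a) * |d| / s) * A ∈ Ici (0 : ℝ) by
          simp only [mem_Ici]; positivity) hmem0
          hs0.le (show 0 ≤ 1 - s by linarith) (by ring)
      simp only [smul_eq_mul, mul_zero, add_zero, h0] at c2
      have e : s * ((|c| / s) * |h x| + ((x - a) * |d| / s) * A) =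
          |c| * |h x| + ((x - a) * |d|) * A := by field_simp
      rw [e] at c2
      refine c2.trans ?_
      have := mul_le_mul_of_nonneg_left c1 hs0.le
      refine this.trans (le_of_eq ?_)
      field_simp
  have step3 : ((x - a) * |d|) * φ A ≤ |d| * ∫ t in a..x, φ |h t| := by
    have := mul_le_mul_of_nonneg_left hav hd0
    refine this.trans (le_of_eq ?_)
    field_simp
  linarith

/-- The half interval estimate. -/
lemma half {φ : ℝ → ℝ} (hφ : ConvexOn ℝ (Ici 0) φ) (hmono : MonotoneOn φ (Ici 0))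
    (hcont : ContinuousOn φ (Ici 0)) (h0 : φ 0 = 0) {h F q q' : ℝ → ℝ} (hh : Continuous h)
    (hFc : Continuous F) {a b : ℝ} (hab : a < b)
    (hq : ∀ x ∈ Ioo a b, HasDerivAt q (q' x) x)
    (hq'c : ContinuousOn q' (Ioo a b))
    (hF : ∀ x ∈ Ioo a b, F x = q x * h x + q' x * ∫ t in a..x, h t)
    (K1 : ∀ x ∈ Ioo a b, |q x + (x - a) * q' x| ≤ 1)
    (K2 : ∀ x ∈ Ioo a b, |q x - (b - x) * q' x| ≤ 1) :
    ∫ x in a..((a + b) / 2), φ |F x| ≤ ∫ x in a..((a + b) / 2), φ |h x| := by
  set m := (a + b) / 2 with hm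
  have ham : a < m := by rw [hm]; linarith
  have hmb : m < b := by rw [hm]; linarith
  have hmem0 : (0 : ℝ) ∈ Ici (0 : ℝ) := mem_Ici.2 le_rfl
  have hφnn : ∀ t, 0 ≤ t → 0 ≤ φ t := fun t ht => by
    rw [← h0]; exact hmono hmem0 (mem_Ici.2 ht) ht
  have hφh : Continuous fun t => φ |h t| :=
    hcont.comp_continuous (continuous_abs.comp hh) (fun t => abs_nonneg (h t))
  have hφF : Continuous fun t => φ |F t| :=
    hcont.comp_continuous (continuous_abs.comp hFc) (fun t => abs_nonneg (F t))
  have hsub : ∀ x ∈ Ioc a m, x ∈ Ioo a b := fun x hx => ⟨hx.1, hx.2.trans_lt hmb⟩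
  -- (i)
  have hi : ∀ x ∈ Ioc a m, |q x| + (x - a) * |q' x| ≤ 1 := by
    intro x hx
    have k1 := K1 x (hsub x hx)
    have k2 := K2 x (hsub x hx)
    have hxa : 0 ≤ x - a := by linarith [hx.1]
    have hxb : x - a ≤ b - x := by linarith [hx.2]
    rw [abs_le] at k1 k2
    rcases abs_cases (q x) with ⟨e1, s1⟩ | ⟨e1, s1⟩ <;>
      rcases abs_cases (q' x) with ⟨e2, s2⟩ | ⟨e2, s2⟩ <;> rw [e1, e2] <;> nlinarith
  -- the remainder function
  set R : ℝ → ℝ := fun y => ∫ t in y..m, |q' t| with hR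
  have habsc : ContinuousOn (fun t => |q' t|) (Ioo a b) := continuous_abs.comp_continuousOn hq'c
  have hq'int : ∀ y ∈ Ioc a m, IntervalIntegrable (fun t => |q' t|) volume y m := by
    intro y hy
    apply ContinuousOn.intervalIntegrable
    rw [uIcc_of_le hy.2]
    exact habsc.mono (fun t ht => ⟨hy.1.trans_le ht.1, ht.2.trans_lt hmb⟩)
  have hRd : ∀ y ∈ Ioc a m, HasDerivAt R (-|q' y|) y := by
    intro y hy
    apply integral_hasDerivAt_left (hq'int y hy)
    · exact habsc.stronglyMeasurableAtFilter isOpen_Ioo y (hsub y hy)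
    · exact habsc.continuousAt (isOpen_Ioo.mem_nhds (hsub y hy))
  have hRm : R m = 0 := by simp [hR]
  have hR0 : ∀ y ∈ Ioc a m, 0 ≤ R y := fun y hy =>
    intervalIntegral.integral_nonneg hy.2 (fun t _ => abs_nonneg _)
  -- (ii)  R + |q| ≤ 1
  have hii : ∀ y ∈ Ioc a m, ∀ ε : ℝ, (ε = 1 ∨ ε = -1) → R y ≤ 1 - ε * q y := by
    intro y hy ε hε
    -- D t = (1 - ε q t) * (a + b - 2 t)/(b-a) - R t
    set D : ℝ → ℝ := fun t => (1 - ε * q t) * ((a + b - 2 * t) / (b - a)) - R t with hD
    have hba : 0 < b - a := sub_pos.2 hab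
    have hDd : ∀ t ∈ Ioc a m, HasDerivAt D
        ((-(ε * q' t)) * ((a + b - 2 * t) / (b - a)) + (1 - ε * q t) * (-2 / (b - a)) - (-|q' t|)) t := by
      intro t ht
      have h1 : HasDerivAt (fun t => 1 - ε * q t) (-(ε * q' t)) t := by
        have := ((hq t (hsub t ht)).const_mul ε).const_sub 1
        simpa using this
      have h2 : HasDerivAt (fun t : ℝ => (a + b - 2 * t) / (b - a)) (-2 / (b - a)) t := by
        have := (((hasDerivAt_id t).const_mul (2 : ℝ)).const_sub (a + b)).div_const (b - a)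
        simpa using this
      exact (h1.mul h2).sub (hRd t ht)
    have hanti : AntitoneOn D (Icc y m) := by
      apply antitoneOn_of_deriv_nonpos (convex_Icc y m)
      · intro t ht
        exact (hDd t ⟨hy.1.trans_le ht.1, ht.2⟩).continuousAt.continuousWithinAt
      · intro t ht
        rw [interior_Icc] at ht
        exact (hDd t ⟨hy.1.trans ht.1, ht.2.le⟩).differentiableAt.differentiableWithinAt
      · intro t ht
        rw [interior_Icc] at ht
        have htm : t ∈ Ioc a m := ⟨hy.1.trans ht.1, ht.2.le⟩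
        rw [(hDd t htm).deriv]
        have k1 := K1 t (hsub t htm)
        have k2 := K2 t (hsub t htm)
        have hxa : 0 ≤ t - a := by linarith [htm.1]
        have hxb : t - a ≤ b - t := by linarith [htm.2]
        rw [abs_le] at k1 k2
        have e : (-(ε * q' t)) * ((a + b - 2 * t) / (b - a)) + (1 - ε * q t) * (-2 / (b - a))
            - (-|q' t|) = ((-(ε * q' t)) * (a + b - 2 * t) - 2 * (1 - ε * q t)
              + |q' t| * (b - a)) / (b - a) := by
          field_simp
          ring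
        rw [e]
        apply div_nonpos_of_nonpos_of_nonneg _ hba.le
        rcases hε with rfl | rfl <;> rcases abs_cases (q' t) with ⟨e2, s2⟩ | ⟨e2, s2⟩ <;>
          rw [e2] <;> nlinarith
    have hDm : D m = 0 := by
      simp only [hD, hRm]
      have : a + b - 2 * m = 0 := by rw [hm]; ring
      rw [this]; simp
    have hDy : 0 ≤ D y := by
      rw [← hDm]; exact hanti ⟨le_rfl, hy.2⟩ ⟨hy.2, le_rfl⟩ hy.2
    have hfac1 : (a + b - 2 * y) / (b - a) ≤ 1 := by
      rw [div_le_one hba]; linarith [hy.1]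
    have hq1 : 0 ≤ 1 - ε * q y := by
      have k := hi y hy
      have : ε * q y ≤ |q y| := by
        rcases hε with rfl | rfl
        · simpa using le_abs_self (q y)
        · simpa using neg_le_abs (q y)
      have h3 : 0 ≤ (y - a) * |q' y| := mul_nonneg (by linarith [hy.1]) (abs_nonneg _)
      linarith
    have : (1 - ε * q y) * ((a + b - 2 * y) / (b - a)) ≤ 1 - ε * q y := by
      have := mul_le_mul_of_nonneg_left hfac1 hq1
      simpa using this
    simp only [hD] at hDy
    linarith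
  have hii' : ∀ y ∈ Ioc a m, R y + |q y| ≤ 1 := by
    intro y hy
    have r1 := hii y hy 1 (Or.inl rfl)
    have r2 := hii y hy (-1) (Or.inr rfl)
    rcases abs_cases (q y) with ⟨e, _⟩ | ⟨e, _⟩ <;> rw [e] <;> linarith
  -- the primitive
  set H : ℝ → ℝ := fun y => ∫ t in a..y, φ |h t| with hH
  have hHd : ∀ y, HasDerivAt H (φ |h y|) y := fun y =>
    integral_hasDerivAt_right (hφh.intervalIntegrable _ _)
      (hφh.stronglyMeasurableAtFilter _ _) hφh.continuousAt
  have hHnn : ∀ y, a ≤ y → 0 ≤ H y := fun y hy =>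
    intervalIntegral.integral_nonneg hy (fun t _ => hφnn _ (abs_nonneg _))
  set W : ℝ → ℝ := fun y => ∫ t in y..m, φ |F t| with hW
  have hWd : ∀ y, HasDerivAt W (-φ |F y|) y := fun y =>
    integral_hasDerivAt_left (hφF.intervalIntegrable _ _)
      (hφF.stronglyMeasurableAtFilter _ _) hφF.continuousAt
  have hWm : W m = 0 := by simp [hW]
  have key : ∀ y ∈ Ioc a m, W y ≤ H m := by
    intro y hy
    set E : ℝ → ℝ := fun t => W t + (1 - R t) * H t with hE
    have hEd : ∀ t ∈ Ioc a m, HasDerivAt E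
        (-φ |F t| + (-(-|q' t|) * H t + (1 - R t) * φ |h t|)) t := by
      intro t ht
      have h1 : HasDerivAt (fun t => 1 - R t) (-(-|q' t|)) t := by
        simpa using (hRd t ht).const_sub 1
      exact (hWd t).add (h1.mul (hHd t))
    have hmonoE : MonotoneOn E (Icc y m) := by
      apply monotoneOn_of_deriv_nonneg (convex_Icc y m)
      · intro t ht
        exact (hEd t ⟨hy.1.trans_le ht.1, ht.2⟩).continuousAt.continuousWithinAt
      · intro t ht
        rw [interior_Icc] at ht
        exact (hEd t ⟨hy.1.trans ht.1, ht.2.le⟩).differentiableAt.differentiableWithinAt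
      · intro t ht
        rw [interior_Icc] at ht
        have htm : t ∈ Ioc a m := ⟨hy.1.trans ht.1, ht.2.le⟩
        rw [(hEd t htm).deriv]
        have J := jensen_pt hφ hmono hcont h0 hh htm.1 (hi t htm) (hF t (hsub t htm))
        have r := hii' t htm
        have p0 := hφnn _ (abs_nonneg (h t))
        have : |q t| * φ |h t| ≤ (1 - R t) * φ |h t| :=
          mul_le_mul_of_nonneg_right (by linarith) p0
        simp only [hH]
        linarith
    have h1 : E y ≤ E m := hmonoE ⟨le_rfl, hy.2⟩ ⟨hy.2, le_rfl⟩ hy.2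
    have h2 : E m = H m := by simp [hE, hWm, hRm]
    have h3 : W y ≤ E y := by
      have r := hii' y hy
      have : 0 ≤ 1 - R y := by linarith [abs_nonneg (q y)]
      have := mul_nonneg this (hHnn y hy.1.le)
      simp only [hE]; linarith
    linarith
  -- let y → a
  have hlim : Tendsto W (𝓝[>] a) (𝓝 (W a)) := (hWd a).continuousAt.continuousWithinAt
  refine le_of_tendsto hlim ?_
  filter_upwards [Ioc_mem_nhdsGT ham] with y hy using key y hy

/-- Convex nondecreasing functions on `[0,∞)` are continuous there. -/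
lemma cont_of_convex_mono {φ : ℝ → ℝ} (hφ : ConvexOn ℝ (Ici 0) φ)
    (hmono : MonotoneOn φ (Ici 0)) : ContinuousOn φ (Ici 0) := by
  intro x hx
  rcases eq_or_lt_of_le (mem_Ici.1 hx) with h | h
  · subst h
    -- at zero, squeeze
    have hu : ∀ᶠ t in 𝓝[Ici 0] (0 : ℝ), φ t ≤ (1 - t) * φ 0 + t * φ 1 := by
      have : Icc (0 : ℝ) 1 ∈ 𝓝[Ici 0] (0 : ℝ) := Icc_mem_nhdsGE (by norm_num)
      filter_upwards [this] with t ht
      have := hφ.2 (show (0 : ℝ) ∈ Ici (0 : ℝ) from mem_Ici.2 le_rfl)
        (show (1 : ℝ) ∈ Ici (0 : ℝ) from mem_Ici.2 zero_le_one)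
        (show 0 ≤ 1 - t by linarith [ht.2]) ht.1 (by ring)
      simpa using this
    have hl : ∀ᶠ t in 𝓝[Ici 0] (0 : ℝ), φ 0 ≤ φ t := by
      filter_upwards [self_mem_nhdsWithin] with t ht
      exact hmono (mem_Ici.2 le_rfl) ht ht
    have lim : Tendsto (fun t : ℝ => (1 - t) * φ 0 + t * φ 1) (𝓝[Ici 0] 0) (𝓝 (φ 0)) := by
      have : Continuous fun t : ℝ => (1 - t) * φ 0 + t * φ 1 := by fun_prop
      have h2 := (this.tendsto 0)
      simp only [sub_zero, one_mul, zero_mul, add_zero] at h2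
      exact h2.mono_left nhdsWithin_le_nhds
    exact tendsto_of_tendsto_of_tendsto_of_le_of_le' tendsto_const_nhds lim hl hu
  · have : ContinuousOn φ (interior (Ici 0)) := hφ.continuousOn_interior
    rw [interior_Ici] at this
    exact (this.continuousAt (isOpen_Ioi.mem_nhds h)).continuousWithinAt

lemma half' {φ : ℝ → ℝ} (hφ : ConvexOn ℝ (Ici 0) φ) (hmono : MonotoneOn φ (Ici 0))
    {h F q q' : ℝ → ℝ} (hh : Continuous h)
    (hFc : Continuous F) {a b : ℝ} (hab : a < b)
    (hq : ∀ x ∈ Ioo a b, HasDerivAt q (q' x) x)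
    (hq'c : ContinuousOn q' (Ioo a b))
    (hF : ∀ x ∈ Ioo a b, F x = q x * h x + q' x * ∫ t in a..x, h t)
    (K1 : ∀ x ∈ Ioo a b, |q x + (x - a) * q' x| ≤ 1)
    (K2 : ∀ x ∈ Ioo a b, |q x - (b - x) * q' x| ≤ 1) :
    ∫ x in a..((a + b) / 2), φ |F x| ≤ ∫ x in a..((a + b) / 2), φ |h x| := by
  have hcont := cont_of_convex_mono hφ hmono
  have hφh : Continuous fun t => φ |h t| :=
    hcont.comp_continuous (continuous_abs.comp hh) (fun t => abs_nonneg (h t))
  have hφF : Continuous fun t => φ |F t| :=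
    hcont.comp_continuous (continuous_abs.comp hFc) (fun t => abs_nonneg (F t))
  have h1 : ConvexOn ℝ (Ici 0) (fun t => φ t + (-φ 0)) := hφ.add_const _
  have h2 : MonotoneOn (fun t => φ t + (-φ 0)) (Ici 0) := hmono.add_const _
  have h3 : ContinuousOn (fun t => φ t + (-φ 0)) (Ici 0) := hcont.add continuousOn_const
  have := half h1 h2 h3 (by ring) hh hFc hab hq hq'c hF K1 K2
  rw [intervalIntegral.integral_add (hφF.intervalIntegrable _ _)
      (continuous_const.intervalIntegrable _ _),
    intervalIntegral.integral_add (hφh.intervalIntegrable _ _)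
      (continuous_const.intervalIntegrable _ _)] at this
  linarith

/-- The estimate on a whole gap between consecutive nodes. -/
lemma full {φ : ℝ → ℝ} (hφ : ConvexOn ℝ (Ici 0) φ) (hmono : MonotoneOn φ (Ici 0))
    {h F q q' : ℝ → ℝ} (hh : Continuous h)
    (hFc : Continuous F) {a b : ℝ} (hab : a < b)
    (hq : ∀ x ∈ Ioo a b, HasDerivAt q (q' x) x)
    (hq'c : ContinuousOn q' (Ioo a b))
    (hI : ∫ t in a..b, h t = 0)
    (hF : ∀ x ∈ Ioo a b, F x = q x * h x + q' x * ∫ t in a..x, h t)
    (K1 : ∀ x ∈ Ioo a b, |q x + (x - a) * q' x| ≤ 1)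
    (K2 : ∀ x ∈ Ioo a b, |q x - (b - x) * q' x| ≤ 1) :
    ∫ x in a..b, φ |F x| ≤ ∫ x in a..b, φ |h x| := by
  have hcont := cont_of_convex_mono hφ hmono
  have hφh : Continuous fun t => φ |h t| :=
    hcont.comp_continuous (continuous_abs.comp hh) (fun t => abs_nonneg (h t))
  have hφF : Continuous fun t => φ |F t| :=
    hcont.comp_continuous (continuous_abs.comp hFc) (fun t => abs_nonneg (F t))
  have left := half' hφ hmono hh hFc hab hq hq'c hF K1 K2
  have right : ∫ x in (-b)..((-b + -a) / 2), φ |F (-x)| ≤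
      ∫ x in (-b)..((-b + -a) / 2), φ |h (-x)| := by
    apply half' (q := fun x => q (-x)) (q' := fun x => -q' (-x)) (h := fun x => h (-x))
      (F := fun x => F (-x)) hφ hmono (hh.comp continuous_neg) (hFc.comp continuous_neg)
      (a := -b) (b := -a) (by linarith)
    · intro x hx
      have hx' : -x ∈ Ioo a b := ⟨by linarith [hx.2], by linarith [hx.1]⟩
      have := (hq (-x) hx').comp x (hasDerivAt_neg x)
      simpa [Function.comp_def] using this
    · apply ContinuousOn.neg
      apply hq'c.comp continuous_neg.continuousOn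
      intro x hx
      exact ⟨by linarith [hx.2], by linarith [hx.1]⟩
    · intro x hx
      have hx' : -x ∈ Ioo a b := ⟨by linarith [hx.2], by linarith [hx.1]⟩
      rw [hF (-x) hx']
      have e1 : ∫ t in (-b)..x, h (-t) = ∫ t in (-x)..b, h t := by
        rw [intervalIntegral.integral_comp_neg (fun t => h t)]
        simp
      have e2 : (∫ t in a..(-x), h t) + ∫ t in (-x)..b, h t = 0 := by
        rw [intervalIntegral.integral_add_adjacent_intervals (hh.intervalIntegrable _ _)
          (hh.intervalIntegrable _ _), hI]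
      rw [e1]
      have e3 : ∫ t in a..(-x), h t = -∫ t in (-x)..b, h t := by linarith
      rw [e3]; ring
    · intro x hx
      have hx' : -x ∈ Ioo a b := ⟨by linarith [hx.2], by linarith [hx.1]⟩
      have := K2 (-x) hx'
      have e : q (-x) + (x - -b) * -q' (-x) = q (-x) - (b - -x) * q' (-x) := by ring
      rw [e]; exact this
    · intro x hx
      have hx' : -x ∈ Ioo a b := ⟨by linarith [hx.2], by linarith [hx.1]⟩
      have := K1 (-x) hx'
      have e : q (-x) - (-a - x) * -q' (-x) = q (-x) + (-x - a) * q' (-x) := by ring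
      rw [e]; exact this
  rw [intervalIntegral.integral_comp_neg (fun t => φ |F t|),
    intervalIntegral.integral_comp_neg (fun t => φ |h t|)] at right
  have e : -((-b + -a) / 2) = (a + b) / 2 := by ring
  rw [e, neg_neg] at right
  rw [← intervalIntegral.integral_add_adjacent_intervals (b := (a + b) / 2)
      (hφF.intervalIntegrable _ _) (hφF.intervalIntegrable _ _),
    ← intervalIntegral.integral_add_adjacent_intervals (b := (a + b) / 2)
      (hφh.intervalIntegrable _ _) (hφh.intervalIntegrable _ _)]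
  linarith

lemma poly_contDiff (P : Polynomial ℝ) (n : WithTop ℕ∞) : ContDiff ℝ n (fun x => P.eval x) := by
  have := P.contDiff_aeval (𝕜 := ℝ) n
  simpa using this

/-- The nodal polynomial of a finset. -/
noncomputable def nod (S : Finset ℝ) : Polynomial ℝ := ∏ s ∈ S, (Polynomial.X - Polynomial.C s)

lemma nod_eval (S : Finset ℝ) (x : ℝ) : (nod S).eval x = ∏ s ∈ S, (x - s) := by
  simp [nod, Polynomial.eval_prod]

lemma nod_monic (S : Finset ℝ) : (nod S).Monic :=
  Polynomial.monic_prod_of_monic _ _ (fun s _ => Polynomial.monic_X_sub_C s)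

lemma nod_natDegree (S : Finset ℝ) : (nod S).natDegree = S.card := by
  simp [nod]

lemma nod_ne (S : Finset ℝ) {x : ℝ} (hx : x ∉ S) : ∏ s ∈ S, (x - s) ≠ 0 := by
  rw [Finset.prod_ne_zero_iff]
  intro s hs h
  exact hx (by rw [sub_eq_zero.1 h]; exact hs)

lemma slope_bound (m : ℕ) (f : ℝ → ℝ) (hf : ContDiff ℝ m f)
    (hL : LipschitzOnWith 1 (iteratedDeriv m f) (Icc (-1 : ℝ) 1)) (S : Finset ℝ)
    (hS : S.card = m) (hSI : ∀ s ∈ S, s ∈ Icc (-1 : ℝ) 1) (hz : ∀ s ∈ S, f s = 0)
    {y1 y2 : ℝ} (h1 : y1 ∈ Icc (-1 : ℝ) 1) (h2 : y2 ∈ Icc (-1 : ℝ) 1) (h1S : y1 ∉ S)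
    (h2S : y2 ∉ S) (h12 : y1 < y2) :
    |f y2 / (∏ s ∈ S, (y2 - s)) - f y1 / (∏ s ∈ S, (y1 - s))| ≤
      (y2 - y1) / ((m + 1).factorial : ℝ) := by
  classical
  set g1 := f y1 / (∏ s ∈ S, (y1 - s)) with hg1
  set g2 := f y2 / (∏ s ∈ S, (y2 - s)) with hg2
  have hd : 0 < y2 - y1 := sub_pos.2 h12
  set σ := (g2 - g1) / (y2 - y1) with hσ
  set τ := g1 - σ * y1 with hτ
  set Q : Polynomial ℝ := nod S * (Polynomial.C σ * Polynomial.X + Polynomial.C τ) with hQ
  have hlin : (Polynomial.C σ * Polynomial.X + Polynomial.C τ : Polynomial ℝ).natDegree ≤ 1 :=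
    Polynomial.natDegree_linear_le
  have hQd : Q.natDegree ≤ m + 1 := by
    refine Polynomial.natDegree_mul_le.trans ?_
    rw [nod_natDegree, hS]; omega
  have hQc : Q.coeff (m + 1) = σ := by
    have e1 : (nod S).coeff m = 1 := by
      have := (nod_monic S).coeff_natDegree
      rwa [nod_natDegree, hS] at this
    have e2 : (nod S).coeff (m + 1) = 0 := by
      apply Polynomial.coeff_eq_zero_of_natDegree_lt
      rw [nod_natDegree, hS]; omega
    rw [hQ, mul_add, Polynomial.coeff_add, ← mul_assoc, Polynomial.coeff_mul_X,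
      Polynomial.coeff_mul_C, Polynomial.coeff_mul_C, e1, e2]
    ring
  have hQe : ∀ x, Q.eval x = (∏ s ∈ S, (x - s)) * (σ * x + τ) := by
    intro x
    simp [hQ, nod_eval]
  set h : ℝ → ℝ := fun x => f x - Q.eval x with hh
  have hcd : ContDiff ℝ m h := by
    apply hf.sub
    exact poly_contDiff Q _
  have hzero : ∀ z ∈ insert y1 (insert y2 S), h z = 0 := by
    intro z hzm
    simp only [Finset.mem_insert] at hzm
    have P1 := nod_ne S h1S
    have P2 := nod_ne S h2S
    rcases hzm with rfl | rfl | hzS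
    · have : σ * z + τ = g1 := by rw [hτ]; ring
      simp only [hh, hQe, this, hg1]
      field_simp
      ring
    · have : σ * z + τ = g2 := by
        rw [hτ, hσ]; field_simp; ring
      simp only [hh, hQe, this, hg2]
      field_simp
      ring
    · simp only [hh, hQe, hz z hzS]
      rw [Finset.prod_eq_zero hzS (sub_self z)]
      ring
  have hcard : (insert y1 (insert y2 S)).card = m + 2 := by
    rw [Finset.card_insert_of_notMem, Finset.card_insert_of_notMem h2S, hS]
    simp only [Finset.mem_insert, not_or]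
    exact ⟨h12.ne, h1S⟩
  have hI : ∀ z ∈ insert y1 (insert y2 S), z ∈ Icc (-1 : ℝ) 1 := by
    intro z hzm
    simp only [Finset.mem_insert] at hzm
    rcases hzm with rfl | rfl | hzS
    · exact h1
    · exact h2
    · exact hSI z hzS
  obtain ⟨ξ, hξ, η, hη, hlt, e1, e2⟩ := rolle_finset m h hcd _ hcard hI hzero
  have hit : ∀ x, iteratedDeriv m h x =
      iteratedDeriv m f x - ((Polynomial.derivative^[m]) Q).eval x := by
    intro x
    have : iteratedDeriv m h x = iteratedDeriv m f x - iteratedDeriv m (fun x => Q.eval x) x :=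
      iteratedDeriv_fun_sub hf.contDiffAt (poly_contDiff Q _).contDiffAt
    rw [this, iteratedDeriv_poly]
  rw [hit] at e1 e2
  have aff := poly_affine m Q hQd ξ η
  rw [hQc] at aff
  have hlip := hL.dist_le_mul η hη ξ hξ
  rw [Real.dist_eq, Real.dist_eq] at hlip
  have hfe : iteratedDeriv m f η - iteratedDeriv m f ξ = ((m + 1).factorial : ℝ) * σ * (η - ξ) := by
    linarith
  rw [hfe] at hlip
  have hfac : (0 : ℝ) < ((m + 1).factorial : ℝ) := by exact_mod_cast Nat.factorial_pos _
  have hpos : 0 < η - ξ := sub_pos.2 hlt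
  have hσb : |σ| ≤ 1 / ((m + 1).factorial : ℝ) := by
    rw [abs_mul, abs_mul, abs_of_pos hfac, abs_of_pos hpos] at hlip
    simp only [NNReal.coe_one, one_mul] at hlip
    rw [le_div_iff₀ hfac]
    have : |σ| * ((m + 1).factorial : ℝ) * (η - ξ) ≤ 1 * (η - ξ) := by nlinarith [hlip]
    exact le_of_mul_le_mul_right this hpos
  have hgd : g2 - g1 = σ * (y2 - y1) := by rw [hσ]; field_simp
  rw [hgd, abs_mul, abs_of_pos hd]
  calc |σ| * (y2 - y1) ≤ (1 / ((m + 1).factorial : ℝ)) * (y2 - y1) :=
        mul_le_mul_of_nonneg_right hσb hd.le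
    _ = _ := by ring

/-- The normalised nodal function. -/
noncomputable def Om (T : Finset ℝ) (x : ℝ) : ℝ := (∏ s ∈ T, (x - s)) / (T.card.factorial : ℝ)

lemma fac_pos (k : ℕ) : (0 : ℝ) < (k.factorial : ℝ) := by exact_mod_cast Nat.factorial_pos _

lemma Om_ne (T : Finset ℝ) {x : ℝ} (hx : x ∉ T) : Om T x ≠ 0 :=
  div_ne_zero (nod_ne T hx) (fac_pos _).ne'

lemma Om_zero (T : Finset ℝ) {x : ℝ} (hx : x ∈ T) : Om T x = 0 := by
  unfold Om
  rw [Finset.prod_eq_zero hx (sub_self x), zero_div]

lemma Om_poly (T : Finset ℝ) :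
    Om T = fun x => (nod T * Polynomial.C (1 / (T.card.factorial : ℝ))).eval x := by
  ext x
  simp [Om, nod_eval, div_eq_mul_inv]

lemma Om_contDiff (T : Finset ℝ) (n : WithTop ℕ∞) : ContDiff ℝ n (Om T) := by
  rw [Om_poly]; exact poly_contDiff _ _

/-- The basic Lipschitz estimate in derivative form. -/
lemma K_bound (m : ℕ) (f : ℝ → ℝ) (hf : ContDiff ℝ m f)
    (hL : LipschitzOnWith 1 (iteratedDeriv m f) (Icc (-1 : ℝ) 1)) (T : Finset ℝ)
    (hT : T.card = m + 1) (hTI : ∀ s ∈ T, s ∈ Icc (-1 : ℝ) 1) (hz : ∀ s ∈ T, f s = 0)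
    {a x : ℝ} (ha : a ∈ T) (hx : x ∈ Ioo (-1 : ℝ) 1) (hxT : x ∉ T) {q' : ℝ}
    (hq : HasDerivAt (fun y => f y / Om T y) q' x) :
    |f x / Om T x + (x - a) * q'| ≤ 1 := by
  classical
  have hd : HasDerivAt (fun y => (y - a) * (f y / Om T y))
      (f x / Om T x + (x - a) * q') x := by
    have := ((hasDerivAt_id' x).sub_const a).mul hq
    rw [one_mul] at this
    exact this
  have hcl : IsClosed (T : Set ℝ) := T.finite_toSet.isClosed
  have hev : ∀ᶠ y in 𝓝 x, y ∉ T := hcl.isOpen_compl.mem_nhds hxT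
  have hev2 : ∀ᶠ y in 𝓝 x, y ∈ Ioo (-1 : ℝ) 1 := isOpen_Ioo.mem_nhds hx
  have hform : ∀ y, y ∉ T → (y - a) * (f y / Om T y) =
      ((m + 1).factorial : ℝ) * (f y / ∏ s ∈ T.erase a, (y - s)) := by
    intro y hy
    have h1 : (y - a) * ∏ s ∈ T.erase a, (y - s) = ∏ s ∈ T, (y - s) :=
      Finset.mul_prod_erase T (fun s => y - s) ha
    have h2 : ∏ s ∈ T.erase a, (y - s) ≠ 0 := nod_ne _ (fun h => hy (Finset.mem_of_mem_erase h))
    have h3 : y - a ≠ 0 := fun h => hy (by rw [sub_eq_zero.1 h]; exact ha)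
    have h4 := (fac_pos (m + 1)).ne'
    unfold Om
    rw [← h1, hT]
    field_simp
  have hcard : (T.erase a).card = m := by
    rw [Finset.card_erase_of_mem ha, hT]; rfl
  have hbound : ∀ y1 y2, y1 ∈ Ioo (-1 : ℝ) 1 → y2 ∈ Ioo (-1 : ℝ) 1 → y1 ∉ T → y2 ∉ T → y1 < y2 →
      |(y2 - a) * (f y2 / Om T y2) - (y1 - a) * (f y1 / Om T y1)| ≤ y2 - y1 := by
    intro y1 y2 h1 h2 h1T h2T h12
    rw [hform y1 h1T, hform y2 h2T, ← mul_sub, abs_mul, abs_of_pos (fac_pos _)]
    have := slope_bound m f hf hL (T.erase a) hcard (fun s hs => hTI s (Finset.mem_of_mem_erase hs))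
      (fun s hs => hz s (Finset.mem_of_mem_erase hs)) ⟨h1.1.le, h1.2.le⟩ ⟨h2.1.le, h2.2.le⟩
      (fun h => h1T (Finset.mem_of_mem_erase h)) (fun h => h2T (Finset.mem_of_mem_erase h)) h12
    have h3 := mul_le_mul_of_nonneg_left this (fac_pos (m + 1)).le
    refine h3.trans (le_of_eq ?_)
    have h4 := (fac_pos (m + 1)).ne'
    field_simp
  have := hd.le_of_lip' (C := 1) zero_le_one ?_
  · simpa using this
  · filter_upwards [hev, hev2] with y hyT hyI
    rw [Real.norm_eq_abs, Real.norm_eq_abs, one_mul]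
    rcases lt_trichotomy y x with h | h | h
    · rw [abs_sub_comm, abs_sub_comm y x, abs_of_pos (sub_pos.2 h)]
      exact hbound y x hyI hx hyT hxT h
    · subst h; simp
    · rw [abs_of_pos (sub_pos.2 h)]
      exact hbound x y hx hyI hxT hyT h

/-- The estimate between two consecutive nodes. -/
lemma gap (m : ℕ) (hm : 1 ≤ m) (f : ℝ → ℝ) (hf : ContDiff ℝ m f)
    (hL : LipschitzOnWith 1 (iteratedDeriv m f) (Icc (-1 : ℝ) 1)) (T : Finset ℝ)
    (hT : T.card = m + 1) (hTI : ∀ s ∈ T, s ∈ Icc (-1 : ℝ) 1) (hz : ∀ s ∈ T, f s = 0)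
    {φ : ℝ → ℝ} (hφ : ConvexOn ℝ (Ici 0) φ) (hmono : MonotoneOn φ (Ici 0))
    {a b : ℝ} (ha : a ∈ T) (hb : b ∈ T) (hab : a < b) (hfree : ∀ s ∈ T, s ∉ Ioo a b) :
    ∫ x in a..b, φ |deriv f x| ≤ ∫ x in a..b, φ |deriv (Om T) x| := by
  have hf1 : ContDiff ℝ 1 f := hf.of_le (by exact_mod_cast hm)
  have hO1 : ContDiff ℝ 1 (Om T) := Om_contDiff T 1
  have hfc : Continuous (deriv f) := hf1.continuous_deriv le_rfl
  have hOc : Continuous (deriv (Om T)) := hO1.continuous_deriv le_rfl
  have hfd : Differentiable ℝ f := hf1.differentiable one_ne_zero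
  have hOd : Differentiable ℝ (Om T) := hO1.differentiable one_ne_zero
  have hne : ∀ x ∈ Ioo a b, x ∉ T := fun x hx hxT => hfree x hxT hx
  have hO : ∀ x ∈ Ioo a b, Om T x ≠ 0 := fun x hx => Om_ne T (hne x hx)
  have hI : ∀ x ∈ Ioo a b, x ∈ Ioo (-1 : ℝ) 1 := fun x hx =>
    ⟨(hTI a ha).1.trans_lt hx.1, hx.2.trans_le (hTI b hb).2⟩
  have hprim : ∀ x, ∫ t in a..x, deriv (Om T) t = Om T x := by
    intro x
    rw [intervalIntegral.integral_deriv_eq_sub (fun t _ => hOd t) (hOc.intervalIntegrable _ _),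
      Om_zero T ha, sub_zero]
  set q : ℝ → ℝ := fun y => f y / Om T y with hq
  set q' : ℝ → ℝ := fun y => (deriv f y * Om T y - f y * deriv (Om T) y) / (Om T y) ^ 2 with hq'
  have hqd : ∀ x ∈ Ioo a b, HasDerivAt q (q' x) x := by
    intro x hx
    exact (hfd x).hasDerivAt.div (hOd x).hasDerivAt (hO x hx)
  apply full (q := q) (q' := q') hφ hmono hOc hfc hab hqd
  · apply ContinuousOn.div
    · exact ((hfc.mul hO1.continuous).sub (hf1.continuous.mul hOc)).continuousOn
    · exact (hO1.continuous.pow 2).continuousOn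
    · intro x hx; exact pow_ne_zero _ (hO x hx)
  · rw [hprim, Om_zero T hb]
  · intro x hx
    rw [hprim]
    have := hO x hx
    simp only [hq, hq']
    field_simp
    ring
  · intro x hx
    exact K_bound m f hf hL T hT hTI hz ha (hI x hx) (hne x hx) (hqd x hx)
  · intro x hx
    have := K_bound m f hf hL T hT hTI hz hb (hI x hx) (hne x hx) (hqd x hx)
    have e : q x - (b - x) * q' x = f x / Om T x + (x - b) * q' x := by
      simp only [hq]; ring
    rw [e]; exact this

/-- Pointwise domination outside the convex hull of the nodes. -/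
lemma outside (m : ℕ) (hm : 1 ≤ m) (f : ℝ → ℝ) (hf : ContDiff ℝ m f)
    (hL : LipschitzOnWith 1 (iteratedDeriv m f) (Icc (-1 : ℝ) 1)) (T : Finset ℝ)
    (hT : T.card = m + 1) (hTI : ∀ s ∈ T, s ∈ Icc (-1 : ℝ) 1) (hz : ∀ s ∈ T, f s = 0)
    {x : ℝ} (hx : x ∈ Icc (-1 : ℝ) 1) (hside : (∀ s ∈ T, s ≤ x) ∨ (∀ s ∈ T, x ≤ s)) :
    |deriv f x| ≤ |deriv (Om T) x| := by
  classical
  by_contra hcon
  push Not at hcon
  obtain ⟨k, rfl⟩ : ∃ k, m = k + 1 := ⟨m - 1, by omega⟩
  have hf1 : ContDiff ℝ 1 f := hf.of_le (by exact_mod_cast hm)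
  have hfx : deriv f x ≠ 0 := by
    intro h
    rw [h, abs_zero] at hcon
    exact absurd hcon (not_lt.2 (abs_nonneg _))
  set lam := deriv (Om T) x / deriv f x with hlam
  have hlam1 : |lam| < 1 := by
    rw [hlam, abs_div, div_lt_one (abs_pos.2 hfx)]; exact hcon
  set h : ℝ → ℝ := fun y => Om T y - lam * f y with hh
  have hcd : ContDiff ℝ ((k + 1 : ℕ) : WithTop ℕ∞) h :=
    (Om_contDiff T _).sub (contDiff_const.mul hf)
  have hh0 : ∀ s ∈ T, h s = 0 := by
    intro s hs
    simp only [hh]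
    rw [Om_zero T hs, hz s hs]; simp
  have hderx : deriv h x = 0 := by
    have : HasDerivAt h (deriv (Om T) x - lam * deriv f x) x :=
      (((Om_contDiff T 1).differentiable one_ne_zero) x).hasDerivAt.sub
        (((hf1.differentiable one_ne_zero) x).hasDerivAt.const_mul lam)
    rw [this.deriv, hlam]
    field_simp
    ring
  have hT' : T.card = (k + 1) + 1 := hT
  set z := T.orderEmbOfFin hT' with hzdef
  obtain ⟨w, hw, hw0, hwz⟩ := rolle_step hcd.continuous z (OrderEmbedding.strictMono _)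
    (fun i => hh0 _ (T.orderEmbOfFin_mem hT' i))
  have hzT : ∀ i, z i ∈ T := fun i => T.orderEmbOfFin_mem hT' i
  set Z : Finset ℝ := insert x (Finset.univ.image w) with hZ
  have hxw : x ∉ Finset.univ.image w := by
    intro hmem
    rw [Finset.mem_image] at hmem
    obtain ⟨i, _, hi⟩ := hmem
    rcases hside with hs | hs
    · have := hs _ (hzT i.succ)
      have := (hwz i).2
      linarith
    · have := hs _ (hzT i.castSucc)
      have := (hwz i).1
      linarith
  have hZc : Z.card = k + 2 := by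
    rw [hZ, Finset.card_insert_of_notMem hxw, Finset.card_image_of_injective _ hw.injective]
    simp
  have hZI : ∀ y ∈ Z, y ∈ Icc (-1 : ℝ) 1 := by
    intro y hy
    rw [hZ, Finset.mem_insert] at hy
    rcases hy with rfl | hy
    · exact hx
    · rw [Finset.mem_image] at hy
      obtain ⟨i, _, rfl⟩ := hy
      exact ⟨(hTI _ (hzT i.castSucc)).1.trans (hwz i).1.le, (hwz i).2.le.trans
        (hTI _ (hzT i.succ)).2⟩
  have hZ0 : ∀ y ∈ Z, deriv h y = 0 := by
    intro y hy
    rw [hZ, Finset.mem_insert] at hy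
    rcases hy with rfl | hy
    · exact hderx
    · rw [Finset.mem_image] at hy
      obtain ⟨i, _, rfl⟩ := hy
      exact hw0 i
  have hd : ContDiff ℝ k (deriv h) := by
    have : ContDiff ℝ ((k : WithTop ℕ∞) + 1) h := by exact_mod_cast hcd
    exact (contDiff_succ_iff_deriv.1 this).2.2
  obtain ⟨ξ, hξ, η, hη, hlt, e1, e2⟩ := rolle_finset k (deriv h) hd Z hZc hZI hZ0
  rw [← iteratedDeriv_succ'] at e1 e2
  have hit : ∀ y, iteratedDeriv (k + 1) h y =
      iteratedDeriv (k + 1) (Om T) y - lam * iteratedDeriv (k + 1) f y := by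
    intro y
    have h1 : iteratedDeriv (k + 1) h y = iteratedDeriv (k + 1) (Om T) y -
        iteratedDeriv (k + 1) (fun y => lam * f y) y :=
      iteratedDeriv_fun_sub (Om_contDiff T _).contDiffAt (contDiff_const.mul hf).contDiffAt
    rw [h1, iteratedDeriv_const_mul_field]
  rw [hit] at e1 e2
  have aff : iteratedDeriv (k + 1) (Om T) η - iteratedDeriv (k + 1) (Om T) ξ = η - ξ := by
    rw [Om_poly, iteratedDeriv_poly]
    have hdeg : (nod T * Polynomial.C (1 / (T.card.factorial : ℝ))).natDegree ≤ (k + 1) + 1 := by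
      refine Polynomial.natDegree_mul_le.trans ?_
      rw [nod_natDegree, hT, Polynomial.natDegree_C]
    have := poly_affine (k + 1) _ hdeg ξ η
    rw [this, Polynomial.coeff_mul_C]
    have e1 : (nod T).coeff (k + 1 + 1) = 1 := by
      have := (nod_monic T).coeff_natDegree
      rwa [nod_natDegree, hT] at this
    rw [e1, hT]
    have := (fac_pos (k + 1 + 1)).ne'
    field_simp
  have hlip := hL.dist_le_mul η hη ξ hξ
  rw [Real.dist_eq, Real.dist_eq] at hlip
  simp only [NNReal.coe_one, one_mul] at hlip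
  have hpos : 0 < η - ξ := sub_pos.2 hlt
  have e3 : η - ξ = lam * (iteratedDeriv (k + 1) f η - iteratedDeriv (k + 1) f ξ) := by
    linarith
  have e4 : |η - ξ| = |lam| * |iteratedDeriv (k + 1) f η - iteratedDeriv (k + 1) f ξ| := by
    rw [← abs_mul, ← e3]
  have e5 : |lam| * |iteratedDeriv (k + 1) f η - iteratedDeriv (k + 1) f ξ| ≤ |lam| * |η - ξ| :=
    mul_le_mul_of_nonneg_left hlip (abs_nonneg _)
  have e6 : 0 < |η - ξ| := abs_pos.2 hpos.ne'
  nlinarith


/-- The estimate between any two points of the set consisting of the nodes and of `-1`, `1`. -/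
lemma segment (m : ℕ) (hm : 1 ≤ m) (f : ℝ → ℝ) (hf : ContDiff ℝ m f)
    (hL : LipschitzOnWith 1 (iteratedDeriv m f) (Icc (-1 : ℝ) 1)) (T : Finset ℝ)
    (hT : T.card = m + 1) (hTI : ∀ s ∈ T, s ∈ Icc (-1 : ℝ) 1) (hz : ∀ s ∈ T, f s = 0)
    {φ : ℝ → ℝ} (hφ : ConvexOn ℝ (Ici 0) φ) (hmono : MonotoneOn φ (Ici 0)) :
    ∀ (a b : ℝ), (a ∈ T ∨ a = -1 ∨ a = 1) → (b ∈ T ∨ b = -1 ∨ b = 1) → a ≤ b →
    ∫ x in a..b, φ |deriv f x| ≤ ∫ x in a..b, φ |deriv (Om T) x| := by
  classical
  have hcont := cont_of_convex_mono hφ hmono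
  have hf1 : ContDiff ℝ 1 f := hf.of_le (by exact_mod_cast hm)
  have hfc : Continuous (deriv f) := hf1.continuous_deriv le_rfl
  have hOc : Continuous (deriv (Om T)) := (Om_contDiff T 1).continuous_deriv le_rfl
  have hφh : Continuous fun t => φ |deriv (Om T) t| :=
    hcont.comp_continuous (continuous_abs.comp hOc) (fun t => mem_Ici.2 (abs_nonneg _))
  have hφF : Continuous fun t => φ |deriv f t| :=
    hcont.comp_continuous (continuous_abs.comp hfc) (fun t => mem_Ici.2 (abs_nonneg _))
  have hIcc : ∀ a : ℝ, (a ∈ T ∨ a = -1 ∨ a = 1) → a ∈ Icc (-1 : ℝ) 1 := by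
    rintro a (h | h | h)
    · exact hTI a h
    · subst h; constructor <;> norm_num
    · subst h; constructor <;> norm_num
  have claim : ∀ k : ℕ, ∀ a b : ℝ, (a ∈ T ∨ a = -1 ∨ a = 1) → (b ∈ T ∨ b = -1 ∨ b = 1) →
      a ≤ b → (T.filter (fun s => a < s ∧ s < b)).card = k →
      ∫ x in a..b, φ |deriv f x| ≤ ∫ x in a..b, φ |deriv (Om T) x| := by
    intro k
    induction k using Nat.strong_induction_on with
    | _ k ih =>
      intro a b ha hb hab hk
      have haI := hIcc a ha
      have hbI := hIcc b hb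
      rcases (T.filter (fun s => a < s ∧ s < b)).eq_empty_or_nonempty with hemp | hne
      · have hfree : ∀ s ∈ T, s ∉ Ioo a b := by
          intro s hs hsI
          have : s ∈ T.filter (fun s => a < s ∧ s < b) := Finset.mem_filter.2 ⟨hs, hsI⟩
          rw [hemp] at this
          exact absurd this (Finset.notMem_empty s)
        by_cases hl : ∀ s ∈ T, s ≤ a
        · apply intervalIntegral.integral_mono_on hab (hφF.intervalIntegrable _ _)
            (hφh.intervalIntegrable _ _)
          intro x hx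
          apply hmono (mem_Ici.2 (abs_nonneg _)) (mem_Ici.2 (abs_nonneg _))
          exact outside m hm f hf hL T hT hTI hz ⟨haI.1.trans hx.1, hx.2.trans hbI.2⟩
            (Or.inl fun s hs => (hl s hs).trans hx.1)
        · by_cases hr : ∀ s ∈ T, b ≤ s
          · apply intervalIntegral.integral_mono_on hab (hφF.intervalIntegrable _ _)
              (hφh.intervalIntegrable _ _)
            intro x hx
            apply hmono (mem_Ici.2 (abs_nonneg _)) (mem_Ici.2 (abs_nonneg _))
            exact outside m hm f hf hL T hT hTI hz ⟨haI.1.trans hx.1, hx.2.trans hbI.2⟩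
              (Or.inr fun s hs => hx.2.trans (hr s hs))
          · push Not at hl hr
            obtain ⟨s, hs, has⟩ := hl
            obtain ⟨t, ht, htb⟩ := hr
            have hbs : b ≤ s := not_lt.1 fun h => hfree s hs ⟨has, h⟩
            have hta : t ≤ a := not_lt.1 fun h => hfree t ht ⟨h, htb⟩
            rcases eq_or_lt_of_le hab with rfl | hlt
            · simp
            · have haT : a ∈ T := by
                rcases ha with h | h | h
                · exact h
                · have : t = a := le_antisymm hta (by rw [h]; exact (hTI t ht).1)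
                  rw [← this]; exact ht
                · exfalso; linarith [hbI.2]
              have hbT : b ∈ T := by
                rcases hb with h | h | h
                · exact h
                · exfalso; linarith [haI.1]
                · have : s = b := le_antisymm (by rw [h]; exact (hTI s hs).2) hbs
                  rw [← this]; exact hs
              exact gap m hm f hf hL T hT hTI hz hφ hmono haT hbT hlt hfree
      · obtain ⟨d, hd⟩ := hne
        obtain ⟨hdT, had, hdb⟩ := Finset.mem_filter.1 hd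
        have h1 : (T.filter (fun s => a < s ∧ s < d)).card < k := by
          rw [← hk]
          apply Finset.card_lt_card
          refine ⟨fun s hs => ?_, fun hsub => ?_⟩
          · rw [Finset.mem_filter] at hs ⊢
            exact ⟨hs.1, hs.2.1, hs.2.2.trans hdb⟩
          · have := hsub hd
            rw [Finset.mem_filter] at this
            exact lt_irrefl _ this.2.2
        have h2 : (T.filter (fun s => d < s ∧ s < b)).card < k := by
          rw [← hk]
          apply Finset.card_lt_card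
          refine ⟨fun s hs => ?_, fun hsub => ?_⟩
          · rw [Finset.mem_filter] at hs ⊢
            exact ⟨hs.1, had.trans hs.2.1, hs.2.2⟩
          · have := hsub hd
            rw [Finset.mem_filter] at this
            exact lt_irrefl _ this.2.1
        have i1 := ih _ h1 a d ha (Or.inl hdT) had.le rfl
        have i2 := ih _ h2 d b (Or.inl hdT) hb hdb.le rfl
        rw [← intervalIntegral.integral_add_adjacent_intervals (b := d)
            (hφF.intervalIntegrable _ _) (hφF.intervalIntegrable _ _),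
          ← intervalIntegral.integral_add_adjacent_intervals (b := d)
            (hφh.intervalIntegrable _ _) (hφh.intervalIntegrable _ _)]
        exact add_le_add i1 i2
  intro a b ha hb hab
  exact claim _ a b ha hb hab rfl

/-- **First derivative, all node sets, all convex gauges.** Let `n ≥ 2`, let `x_1, ..., x_n` be
distinct nodes in `[-1,1]`, and let `f` be `C^{n-1}` with `f^{(n-1)}` 1-Lipschitz on `[-1,1]`,
vanishing at the nodes.  Put `ω(x) = ∏ (x - x_i) / n!`.  Then for every `p ≥ 1` the `L_p` norm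
of `f'` on `[-1,1]` is at most that of `ω'`; more precisely, for every convex
nondecreasing `φ` on `[0,∞)` and all `a ≤ b` each of which is a node or an endpoint of `[-1,1]`,
the integral of `φ(|f'|)` over `[a,b]` is at most that of `φ(|ω'|)`. -/
theorem result (n : ℕ) (hn : 2 ≤ n) (xs : Fin n → ℝ) (hinj : Function.Injective xs)
    (hmem : ∀ i, xs i ∈ Set.Icc (-1 : ℝ) 1) (f : ℝ → ℝ)
    (hf : ContDiff ℝ ((n - 1 : ℕ) : WithTop ℕ∞) f)
    (hL : LipschitzOnWith 1 (iteratedDeriv (n - 1) f) (Set.Icc (-1 : ℝ) 1))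
    (hz : ∀ i, f (xs i) = 0) :
    (∀ p : ℝ, 1 ≤ p →
      ∫ x in (-1 : ℝ)..1, |deriv f x| ^ p ≤
        ∫ x in (-1 : ℝ)..1,
          |deriv (fun y => (∏ i, (y - xs i)) / (n.factorial : ℝ)) x| ^ p) ∧
    (∀ φ : ℝ → ℝ, ConvexOn ℝ (Set.Ici 0) φ → MonotoneOn φ (Set.Ici 0) →
      ∀ a b : ℝ, (a ∈ Set.range xs ∨ a = -1 ∨ a = 1) → (b ∈ Set.range xs ∨ b = -1 ∨ b = 1) →
        a ≤ b →
        ∫ x in a..b, φ |deriv f x| ≤
          ∫ x in a..b, φ |deriv (fun y => (∏ i, (y - xs i)) / (n.factorial : ℝ)) x|) := by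
  classical
  obtain ⟨m, rfl⟩ : ∃ m, n = m + 1 := ⟨n - 1, by omega⟩
  have hm : 1 ≤ m := by omega
  simp only [Nat.add_sub_cancel] at hf hL
  set T : Finset ℝ := Finset.univ.image xs with hTdef
  have hT : T.card = m + 1 := by
    rw [hTdef, Finset.card_image_of_injective _ hinj]; simp
  have hOm : (fun y => (∏ i, (y - xs i)) / ((m + 1).factorial : ℝ)) = Om T := by
    ext y
    unfold Om
    rw [hT, hTdef, Finset.prod_image (fun i _ j _ h => hinj h)]
  have hTI : ∀ s ∈ T, s ∈ Icc (-1 : ℝ) 1 := by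
    intro s hs
    rw [hTdef, Finset.mem_image] at hs
    obtain ⟨i, _, rfl⟩ := hs
    exact hmem i
  have hzT : ∀ s ∈ T, f s = 0 := by
    intro s hs
    rw [hTdef, Finset.mem_image] at hs
    obtain ⟨i, _, rfl⟩ := hs
    exact hz i
  have hr : ∀ a : ℝ, a ∈ Set.range xs → a ∈ T := by
    rintro a ⟨i, rfl⟩
    exact Finset.mem_image_of_mem _ (Finset.mem_univ _)
  rw [hOm]
  constructor
  · intro p hp
    have h1 : ConvexOn ℝ (Ici 0) (fun t : ℝ => t ^ p) := convexOn_rpow hp
    have h2 : MonotoneOn (fun t : ℝ => t ^ p) (Ici 0) := fun x hx y _ hxy =>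
      Real.rpow_le_rpow hx hxy (by linarith)
    exact segment m hm f hf hL T hT hTI hzT h1 h2 (-1) 1 (Or.inr (Or.inl rfl))
      (Or.inr (Or.inr rfl)) (by norm_num)
  · intro φ hφ hmono a b ha hb hab
    exact segment m hm f hf hL T hT hTI hzT hφ hmono a b (ha.imp_left (hr a))
      (hb.imp_left (hr b)) hab

end Pool.Agent.Results.MP_0f1375_an.FirstDerivative
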