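import Pool.Agent.LPW.FIN

set_option autoImplicit false

open Set MeasureTheory intervalIntegral Polynomial

namespace Pool.Agent.Results.MP_0f1375_an.SquareNorm

open Pool.Agent.LPW

/-- **All derivatives, all node sets, `p = 2` and `n/(n-k) ≤ p ≤ 2`.**  Let `n ≥ 2`, let
`x_1, ..., x_n` be distinct nodes in `[-1,1]`, `1 ≤ k ≤ n-1`, and let `f` be `C^{n-1}` with
`f^{(n-1)}` 1-Lipschitz on `[-1,1]`, vanishing at the nodes.  Put `ω(x) = ∏ (x - x_i) / n!`.  If
`p = 2`, or if `n/(n-k) ≤ p ≤ 2`, then the `L_p` norm of `f^{(k)}` on `[-1,1]` is at most that of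
`ω^{(k)}`. -/
theorem result (n : ℕ) (hn : 2 ≤ n) (xs : Fin n → ℝ) (hinj : Function.Injective xs)
    (hmem : ∀ i, xs i ∈ Set.Icc (-1 : ℝ) 1) (k : ℕ) (hk1 : 1 ≤ k) (hk2 : k ≤ n - 1) (p : ℝ)
    (hp : p = 2 ∨ ((n : ℝ) / ((n : ℝ) - k) ≤ p ∧ p ≤ 2)) (f : ℝ → ℝ)
    (hf : ContDiff ℝ ((n - 1 : ℕ) : WithTop ℕ∞) f)
    (hL : LipschitzOnWith 1 (iteratedDeriv (n - 1) f) (Set.Icc (-1 : ℝ) 1))
    (hz : ∀ i, f (xs i) = 0) :
    ∫ x in (-1 : ℝ)..1, |iteratedDeriv k f x| ^ p ≤
      ∫ x in (-1 : ℝ)..1,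
        |iteratedDeriv k (fun y => (∏ i, (y - xs i)) / (n.factorial : ℝ)) x| ^ p := by
  classical
  have hk3 : k + 1 ≤ n := by omega
  have hp' : p = 2 ∨ ((n : ℝ) ≤ p * ((n : ℝ) - k) ∧ p ≤ 2) := by
    refine hp.imp_right fun ⟨h1, h2⟩ => ⟨?_, h2⟩
    have h3 : (0 : ℝ) < (n : ℝ) - k := by
      have : (k : ℝ) + 1 ≤ n := by exact_mod_cast hk3
      linarith
    exact (div_le_iff₀ h3).1 h1
  set Y : Finset ℝ := Finset.univ.image xs with hYdef
  have hYn : Y.card = n := by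
    rw [hYdef, Finset.card_image_of_injective _ hinj]; simp
  have hY : ∀ y ∈ Y, y ∈ Icc (-1 : ℝ) 1 := by
    intro y hy
    rw [hYdef, Finset.mem_image] at hy
    obtain ⟨i, _, rfl⟩ := hy
    exact hmem i
  have hzY : ∀ y ∈ Y, f y = 0 := by
    intro y hy
    rw [hYdef, Finset.mem_image] at hy
    obtain ⟨i, _, rfl⟩ := hy
    exact hz i
  have hmain := main_finset hn hYn hY hk1 hk2 hp' hf hL hzY
  have hω : iteratedDeriv k (fun y => (∏ i, (y - xs i)) / (n.factorial : ℝ)) =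
      fun x => dv (nod Y) k x / (n.factorial : ℝ) := by
    have h1 : (fun y => (∏ i, (y - xs i)) / (n.factorial : ℝ)) =
        fun y => (C ((n.factorial : ℝ)⁻¹) * nod Y).eval y := by
      funext y
      rw [eval_mul, eval_C, nod_eval, hYdef, Finset.prod_image (fun i _ j _ h => hinj h),
        div_eq_inv_mul]
    rw [h1]
    have h2 : ∀ (m : ℕ) (P : ℝ[X]),
        iteratedDeriv m (fun x => P.eval x) = fun x => ((Polynomial.derivative^[m]) P).eval x := by
      intro m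
      induction m with
      | zero => intro P; simp
      | succ m ih =>
        intro P
        rw [iteratedDeriv_succ']
        have : deriv (fun x => P.eval x) = fun x => (Polynomial.derivative P).eval x := by
          ext x; simp
        rw [this, ih, Function.iterate_succ_apply]
    rw [h2]
    funext x
    have h3 := dv_C_mul ((n.factorial : ℝ)⁻¹) (nod Y) k x
    unfold dv at h3 ⊢
    rw [h3, div_eq_inv_mul]
  rw [hω]
  exact hmain

end Pool.Agent.Results.MP_0f1375_an.SquareNorm
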