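import Mathlib

set_option autoImplicit false

open Set MeasureTheory intervalIntegral Filter Topology

namespace Pool.Agent.Results.MP_0f1375_an.TopDerivative

/-! ### Part 1: one-dimensional integral inequalities for 1-Lipschitz functions -/

/-- A 1-Lipschitz map of `[a,b]` into `[m,M]` that is onto spends at least the time `|B|` in
every Borel set `B` of `[m,M]`. -/
lemma push {g : ℝ → ℝ} {a b m M : ℝ} (hab : a ≤ b) (hmM : m ≤ M)
    (hg : LipschitzOnWith 1 g (Icc a b)) (hsurj : Icc m M ⊆ g '' Icc a b)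
    {χ : ℝ → ℝ} (hχ : Continuous χ) (h0 : ∀ v, 0 ≤ χ v) :
    ∫ v in m..M, χ v ≤ ∫ x in a..b, χ (g x) := by
  have hgc : ContinuousOn g (Icc a b) := hg.continuousOn
  have hgm : AEMeasurable g (volume.restrict (Icc a b)) :=
    hgc.aemeasurable measurableSet_Icc
  set ν : Measure ℝ := Measure.map g (volume.restrict (Icc a b)) with hν
  have hle : volume.restrict (Icc m M) ≤ ν := by
    rw [Measure.le_iff]
    intro s hs
    rw [hν, Measure.map_apply_of_aemeasurable hgm hs, Measure.restrict_apply hs]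
    have hsub : s ∩ Icc m M ⊆ g '' (g ⁻¹' s ∩ Icc a b) := by
      rintro v ⟨hvs, hvI⟩
      obtain ⟨x, hx, rfl⟩ := hsurj hvI
      exact ⟨x, ⟨hvs, hx⟩, rfl⟩
    have hlip : LipschitzOnWith 1 g (g ⁻¹' s ∩ Icc a b) := hg.mono inter_subset_right
    have h1 := hlip.hausdorffMeasure_image_le (d := 1) (by norm_num)
    rw [hausdorffMeasure_real] at h1
    simp only [ENNReal.coe_one, ENNReal.one_rpow, one_mul] at h1
    calc volume (s ∩ Icc m M) ≤ volume (g '' (g ⁻¹' s ∩ Icc a b)) := measure_mono hsub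
      _ ≤ volume (g ⁻¹' s ∩ Icc a b) := h1
      _ ≤ (volume.restrict (Icc a b)) (g ⁻¹' s) := Measure.le_restrict_apply _ _
  have hcomp : ContinuousOn (fun x => χ (g x)) (Icc a b) := hχ.comp_continuousOn hgc
  have hint : Integrable χ ν := by
    rw [hν, integrable_map_measure hχ.aestronglyMeasurable hgm]
    exact hcomp.integrableOn_Icc
  have h2 : ∫ v, χ v ∂(volume.restrict (Icc m M)) ≤ ∫ v, χ v ∂ν :=
    integral_mono_measure hle (Eventually.of_forall h0) hint
  rw [hν, integral_map hgm hχ.aestronglyMeasurable] at h2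
  rw [intervalIntegral.integral_of_le hmM, intervalIntegral.integral_of_le hab,
    ← integral_Icc_eq_integral_Ioc, ← integral_Icc_eq_integral_Ioc]
  exact h2

/-- Convex nondecreasing functions on `[0,∞)` are continuous there. -/
lemma cont_of_convex_mono {φ : ℝ → ℝ} (hφ : ConvexOn ℝ (Ici 0) φ)
    (hmono : MonotoneOn φ (Ici 0)) : ContinuousOn φ (Ici 0) := by
  intro x hx
  rcases eq_or_lt_of_le (mem_Ici.1 hx) with h | h
  · subst h
    have hu : ∀ᶠ t in 𝓝[Ici 0] (0 : ℝ), φ t ≤ (1 - t) * φ 0 + t * φ 1 := by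
      have : Icc (0 : ℝ) 1 ∈ 𝓝[Ici 0] (0 : ℝ) := Icc_mem_nhdsGE (by norm_num)
      filter_upwards [this] with t ht
      have := hφ.2 (show (0 : ℝ) ∈ Ici (0 : ℝ) from mem_Ici.2 le_rfl)
        (show (1 : ℝ) ∈ Ici (0 : ℝ) from mem_Ici.2 zero_le_one)
        (show 0 ≤ 1 - t by linarith [ht.2]) ht.1 (by ring)
      simpa using this
    have hl : ∀ᶠ t in 𝓝[Ici 0] (0 : ℝ), φ 0 ≤ φ t := by
      filter_upwards [self_mem_nhdsWithin] with t ht
      exact hmono (mem_Ici.2 le_rfl) ht ht
    have lim : Tendsto (fun t : ℝ => (1 - t) * φ 0 + t * φ 1) (𝓝[Ici 0] 0) (𝓝 (φ 0)) := by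
      have : Continuous fun t : ℝ => (1 - t) * φ 0 + t * φ 1 := by fun_prop
      have h2 := (this.tendsto 0)
      simp only [sub_zero, one_mul, zero_mul, add_zero] at h2
      exact h2.mono_left nhdsWithin_le_nhds
    exact tendsto_of_tendsto_of_tendsto_of_le_of_le' tendsto_const_nhds lim hl hu
  · have : ContinuousOn φ (interior (Ici 0)) := hφ.continuousOn_interior
    rw [interior_Ici] at this
    exact (this.continuousAt (isOpen_Ioi.mem_nhds h)).continuousWithinAt

/-- For `0 ≤ u`, `0 ≤ v`: `∫_0^u φ + ∫_0^v φ ≤ ∫_0^{u+v} φ`. -/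
lemma superadd {φ : ℝ → ℝ} (hmono : MonotoneOn φ (Ici 0)) (hc : ContinuousOn φ (Ici 0))
    {u v : ℝ} (hu : 0 ≤ u) (hv : 0 ≤ v) :
    (∫ t in (0 : ℝ)..u, φ t) + ∫ t in (0 : ℝ)..v, φ t ≤ ∫ t in (0 : ℝ)..(u + v), φ t := by
  have hi : ∀ s t : ℝ, 0 ≤ s → 0 ≤ t → IntervalIntegrable φ volume s t := by
    intro s t hs ht
    apply ContinuousOn.intervalIntegrable
    exact hc.mono (fun x hx => (le_min hs ht).trans hx.1)
  rw [← integral_add_adjacent_intervals (hi 0 u le_rfl hu) (hi u (u + v) hu (by linarith))]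
  have e : ∫ t in u..(u + v), φ t = ∫ t in (0 : ℝ)..v, φ (u + t) := by
    rw [intervalIntegral.integral_comp_add_left (fun t => φ t) u]
    simp
  rw [e]
  have : ∫ t in (0 : ℝ)..v, φ t ≤ ∫ t in (0 : ℝ)..v, φ (u + t) := by
    apply intervalIntegral.integral_mono_on hv (hi 0 v le_rfl hv)
    · apply ContinuousOn.intervalIntegrable
      rw [uIcc_of_le hv]
      apply hc.comp (by fun_prop)
      intro x hx
      exact mem_Ici.2 (by linarith [hx.1])
    · intro x hx
      exact hmono (mem_Ici.2 hx.1) (mem_Ici.2 (by linarith [hx.1])) (by linarith)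
  linarith

/-- `∫_a^b φ(|x - z|) = ∫_0^{z-a} φ + ∫_0^{b-z} φ`. -/
lemma integral_abs_sub {φ : ℝ → ℝ} (hc : ContinuousOn φ (Ici 0)) {a b z : ℝ} (haz : a ≤ z)
    (hzb : z ≤ b) :
    ∫ x in a..b, φ |x - z| = (∫ t in (0 : ℝ)..(z - a), φ t) + ∫ t in (0 : ℝ)..(b - z), φ t := by
  have hcc : Continuous fun x : ℝ => φ |x - z| := by
    apply hc.comp_continuous (by fun_prop)
    intro x
    exact mem_Ici.2 (abs_nonneg _)
  rw [← integral_add_adjacent_intervals (hcc.intervalIntegrable a z)
    (hcc.intervalIntegrable z b)]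
  congr 1
  · have e1 : ∫ x in a..z, φ |x - z| = ∫ x in a..z, φ (z - x) := by
      apply intervalIntegral.integral_congr
      intro x hx
      rw [uIcc_of_le haz] at hx
      simp only
      rw [abs_of_nonpos (by linarith [hx.2])]
      congr 1
      ring
    rw [e1, intervalIntegral.integral_comp_sub_left (fun t => φ t) z]
    simp
  · have e1 : ∫ x in z..b, φ |x - z| = ∫ x in z..b, φ (x - z) := by
      apply intervalIntegral.integral_congr
      intro x hx
      rw [uIcc_of_le hzb] at hx
      simp only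
      rw [abs_of_nonneg (by linarith [hx.1])]
    rw [e1, intervalIntegral.integral_comp_sub_right (fun t => φ t) z]
    simp

/-- The case of a nonnegative function. -/
lemma lip_pos {φ : ℝ → ℝ} (hφ : ConvexOn ℝ (Ici 0) φ) (hmono : MonotoneOn φ (Ici 0))
    {g : ℝ → ℝ} {a b : ℝ} (hab : a < b) (hg : LipschitzOnWith 1 g (Icc a b))
    (hpos : ∀ x ∈ Icc a b, 0 ≤ g x) (hI : ∫ x in a..b, g x ≤ (b - a) ^ 2 / 2) :
    ∫ x in a..b, φ (g x) ≤ ∫ t in (0 : ℝ)..(b - a), φ t := by
  have hc := cont_of_convex_mono hφ hmono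
  have hgc : ContinuousOn g (Icc a b) := hg.continuousOn
  have hne : (Icc a b).Nonempty := nonempty_Icc.2 hab.le
  obtain ⟨x0, hx0, hmin⟩ := isCompact_Icc.exists_isMinOn hne hgc
  obtain ⟨x1, hx1, hmax⟩ := isCompact_Icc.exists_isMaxOn hne hgc
  set m := g x0 with hm
  set M := g x1 with hM
  set L := b - a with hL
  have hLpos : 0 < L := sub_pos.2 hab
  have hlo : ∀ x ∈ Icc a b, m ≤ g x := fun x hx => hmin hx
  have hhi : ∀ x ∈ Icc a b, g x ≤ M := fun x hx => hmax hx
  have hm0 : 0 ≤ m := hpos x0 hx0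
  have hmM : m ≤ M := hlo x1 hx1
  have hii : ∀ s t : ℝ, 0 ≤ s → 0 ≤ t → IntervalIntegrable φ volume s t := by
    intro s t hs ht
    apply ContinuousOn.intervalIntegrable
    exact hc.mono (fun x hx => (le_min hs ht).trans hx.1)
  have hgint : IntervalIntegrable g volume a b := by
    apply ContinuousOn.intervalIntegrable
    rwa [uIcc_of_le hab.le]
  have hφg : IntervalIntegrable (fun x => φ (g x)) volume a b := by
    apply ContinuousOn.intervalIntegrable
    rw [uIcc_of_le hab.le]
    exact hc.comp hgc (fun x hx => mem_Ici.2 (hpos x hx))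
  rcases hmM.eq_or_lt with hEq | hlt
  · -- constant function
    have hconst : ∀ x ∈ Icc a b, g x = m := fun x hx =>
      le_antisymm ((hhi x hx).trans hEq.symm.le) (hlo x hx)
    have e1 : ∫ x in a..b, g x = L * m := by
      rw [intervalIntegral.integral_congr (g := fun _ => m)]
      · simp [hL]
      · intro x hx
        rw [uIcc_of_le hab.le] at hx
        exact hconst x hx
    have e2 : ∫ x in a..b, φ (g x) = L * φ m := by
      rw [intervalIntegral.integral_congr (g := fun _ => φ m)]
      · simp [hL]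
      · intro x hx
        rw [uIcc_of_le hab.le] at hx
        simp only
        rw [hconst x hx]
    rw [e1] at hI
    have hmL : m ≤ L / 2 := by nlinarith
    have h1 : φ m ≤ φ (L / 2) := hmono (mem_Ici.2 hm0) (mem_Ici.2 (by positivity)) hmL
    have h2 : ∫ t in (0 : ℝ)..L, φ (L - t) = ∫ t in (0 : ℝ)..L, φ t := by
      rw [intervalIntegral.integral_comp_sub_left (fun t => φ t) L]
      simp
    have hint2 : IntervalIntegrable (fun t => φ (L - t)) volume 0 L := by
      apply ContinuousOn.intervalIntegrable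
      rw [uIcc_of_le hLpos.le]
      apply hc.comp (by fun_prop)
      intro x hx
      exact mem_Ici.2 (by linarith [hx.2])
    have h3 : ∫ t in (0 : ℝ)..L, (2 * φ (L / 2)) ≤ ∫ t in (0 : ℝ)..L, (φ t + φ (L - t)) := by
      apply intervalIntegral.integral_mono_on hLpos.le
      · simp
      · exact (hii 0 L le_rfl hLpos.le).add hint2
      · intro t ht
        have := hφ.2 (mem_Ici.2 ht.1) (show L - t ∈ Ici (0 : ℝ) from mem_Ici.2 (by linarith [ht.2]))
          (show (0 : ℝ) ≤ 1 / 2 by norm_num) (show (0 : ℝ) ≤ 1 / 2 by norm_num) (by norm_num)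
        simp only [smul_eq_mul] at this
        have e : (1 / 2 : ℝ) * t + 1 / 2 * (L - t) = L / 2 := by ring
        rw [e] at this
        linarith
    rw [intervalIntegral.integral_add (hii 0 L le_rfl hLpos.le) hint2, h2] at h3
    simp only [intervalIntegral.integral_const, smul_eq_mul, sub_zero] at h3
    rw [e2]
    nlinarith
  · -- the general case
    have hd : 0 < M - m := sub_pos.2 hlt
    set lam := (φ M - φ m) / (M - m) with hlam
    have hM0 : 0 ≤ M := hm0.trans hmM
    have hφmM : φ m ≤ φ M := hmono (mem_Ici.2 hm0) (mem_Ici.2 hM0) hmM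
    have hlam0 : 0 ≤ lam := div_nonneg (by linarith) hd.le
    have hlamd : lam * (M - m) = φ M - φ m := by
      rw [hlam]; field_simp
    set ψ : ℝ → ℝ := fun t => φ t - lam * t with hψ
    set K := φ m - lam * m with hK
    have hKM : φ M - lam * M = K := by rw [hK]; linarith
    -- ψ ≤ K inside
    have hin : ∀ t ∈ Icc m M, ψ t ≤ K := by
      intro t ht
      have h1 := hφ.2 (mem_Ici.2 hm0) (mem_Ici.2 hM0)
        (show 0 ≤ (M - t) / (M - m) from div_nonneg (by linarith [ht.2]) hd.le)
        (show 0 ≤ (t - m) / (M - m) from div_nonneg (by linarith [ht.1]) hd.le)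
        (by field_simp; ring)
      simp only [smul_eq_mul] at h1
      have e1 : (M - t) / (M - m) * m + (t - m) / (M - m) * M = t := by
        field_simp; ring
      have e2 : (M - t) / (M - m) * φ m + (t - m) / (M - m) * φ M = φ m + lam * (t - m) := by
        rw [hlam]; field_simp; ring
      rw [e1, e2] at h1
      simp only [hψ, hK]
      linarith
    -- ψ ≥ K to the left
    have hleft : ∀ t ∈ Icc 0 m, K ≤ ψ t := by
      intro t ht
      rcases ht.2.eq_or_lt with h | h
      · rw [h]
      · have hs := hφ.slope_mono_adjacent (mem_Ici.2 ht.1) (mem_Ici.2 hM0) h hlt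
        rw [← hlam, div_le_iff₀ (sub_pos.2 h)] at hs
        simp only [hψ, hK]
        linarith
    have hright : ∀ t, M ≤ t → K ≤ ψ t := by
      intro t ht
      rcases ht.eq_or_lt with h | h
      · rw [← h]; exact hKM.symm.le
      · have hs := hφ.slope_mono_adjacent (mem_Ici.2 hm0) (mem_Ici.2 (hM0.trans ht)) hlt h
        rw [← hlam, le_div_iff₀ (sub_pos.2 h)] at hs
        simp only [hψ]
        linarith
    -- M ≤ L
    have hML : M ≤ L := by
      by_contra hcon
      push Not at hcon
      have h1 : ∀ x ∈ Icc a b, M - |x - x1| ≤ g x := by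
        intro x hx
        have := hg.dist_le_mul x1 hx1 x hx
        rw [Real.dist_eq, Real.dist_eq] at this
        simp only [NNReal.coe_one, one_mul] at this
        have h2 := (abs_le.1 this).2
        rw [abs_sub_comm x1 x] at h2
        linarith
      have h2 : ∫ x in a..b, (M - |x - x1|) ≤ ∫ x in a..b, g x := by
        apply intervalIntegral.integral_mono_on hab.le
        · apply Continuous.intervalIntegrable; fun_prop
        · exact hgint
        · exact h1
      have h3 := integral_abs_sub (φ := fun t => t) continuousOn_id hx1.1 hx1.2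
      simp only [integral_id] at h3
      rw [intervalIntegral.integral_sub (by simp)
        (by apply Continuous.intervalIntegrable; fun_prop), h3] at h2
      simp only [intervalIntegral.integral_const, smul_eq_mul] at h2
      have h4 : 0 ≤ (x1 - a) * (b - x1) := mul_nonneg (by linarith [hx1.1]) (by linarith [hx1.2])
      have h5 : 0 < L * (M - L) := mul_pos hLpos (by linarith)
      nlinarith
    -- the continuous extension of K - ψ
    set χ : ℝ → ℝ := fun v => K - ψ (max m (min M v)) with hχ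
    have hcl : ∀ v : ℝ, max m (min M v) ∈ Icc m M := fun v =>
      ⟨le_max_left _ _, max_le hmM (min_le_left _ _)⟩
    have hψc : ContinuousOn ψ (Ici 0) := hc.sub (by fun_prop)
    have hχc : Continuous χ := by
      apply Continuous.sub continuous_const
      apply hψc.comp_continuous (by fun_prop)
      intro v
      exact mem_Ici.2 (hm0.trans (hcl v).1)
    have hχ0 : ∀ v, 0 ≤ χ v := fun v => sub_nonneg.2 (hin _ (hcl v))
    have hχeq : ∀ v ∈ Icc m M, χ v = K - ψ v := by
      intro v hv
      simp only [hχ]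
      rw [min_eq_right hv.2, max_eq_right hv.1]
    have hsurj : Icc m M ⊆ g '' Icc a b := by
      have := isPreconnected_Icc.intermediate_value hx0 hx1 hgc
      exact this
    have hpush := push hab.le hmM hg hsurj hχc hχ0
    have e1 : ∫ v in m..M, χ v = K * (M - m) - ∫ v in m..M, ψ v := by
      rw [intervalIntegral.integral_congr (g := fun v => K - ψ v)
        (fun v hv => hχeq v (by rwa [uIcc_of_le hmM] at hv))]
      rw [intervalIntegral.integral_sub (by simp)]
      · simp; ring
      · apply ContinuousOn.intervalIntegrable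
        rw [uIcc_of_le hmM]
        exact hψc.mono (fun x hx => mem_Ici.2 (hm0.trans hx.1))
    have e2 : ∫ x in a..b, χ (g x) = K * L - (∫ x in a..b, φ (g x)) + lam * ∫ x in a..b, g x := by
      rw [intervalIntegral.integral_congr (g := fun x => (K - φ (g x)) + lam * g x)]
      · rw [intervalIntegral.integral_add, intervalIntegral.integral_sub (by simp) hφg,
          intervalIntegral.integral_const_mul]
        · simp [hL]; ring
        · exact (by simp : IntervalIntegrable (fun _ => K) volume a b).sub hφg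
        · exact hgint.const_mul lam
      · intro x hx
        rw [uIcc_of_le hab.le] at hx
        simp only
        rw [hχeq (g x) ⟨hlo x hx, hhi x hx⟩]
        simp only [hψ]
        ring
    rw [e1, e2] at hpush
    -- the integral over [0,L]
    have hψi : ∀ s t : ℝ, 0 ≤ s → 0 ≤ t → IntervalIntegrable ψ volume s t := by
      intro s t hs ht
      apply ContinuousOn.intervalIntegrable
      exact hψc.mono (fun x hx => (le_min hs ht).trans hx.1)
    have s1 : ∫ t in (0 : ℝ)..L, ψ t = (∫ t in (0 : ℝ)..L, φ t) - lam * (L ^ 2 / 2) := by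
      simp only [hψ]
      rw [intervalIntegral.integral_sub (hii 0 L le_rfl hLpos.le)
        (by apply Continuous.intervalIntegrable; fun_prop),
        intervalIntegral.integral_const_mul, integral_id]
      ring
    have s2 : ∫ t in (0 : ℝ)..L, ψ t =
        (∫ t in (0 : ℝ)..m, ψ t) + (∫ t in m..M, ψ t) + ∫ t in M..L, ψ t := by
      rw [intervalIntegral.integral_add_adjacent_intervals (hψi 0 m le_rfl hm0)
        (hψi m M hm0 hM0), intervalIntegral.integral_add_adjacent_intervals
        (hψi 0 M le_rfl hM0) (hψi M L hM0 hLpos.le)]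
    have s3 : K * m ≤ ∫ t in (0 : ℝ)..m, ψ t := by
      have : ∫ t in (0 : ℝ)..m, K ≤ ∫ t in (0 : ℝ)..m, ψ t :=
        intervalIntegral.integral_mono_on hm0 (by simp) (hψi 0 m le_rfl hm0) hleft
      simp only [intervalIntegral.integral_const, smul_eq_mul, sub_zero] at this
      linarith
    have s4 : K * (L - M) ≤ ∫ t in M..L, ψ t := by
      have : ∫ t in M..L, K ≤ ∫ t in M..L, ψ t :=
        intervalIntegral.integral_mono_on hML (by simp) (hψi M L hM0 hLpos.le)
          (fun t ht => hright t ht.1)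
      simp only [intervalIntegral.integral_const, smul_eq_mul] at this
      linarith
    have s5 : lam * (∫ x in a..b, g x) ≤ lam * (L ^ 2 / 2) := mul_le_mul_of_nonneg_left hI hlam0
    linarith

/-- The integral inequality for 1-Lipschitz functions of arbitrary sign. -/
lemma lip_main {φ : ℝ → ℝ} (hφ : ConvexOn ℝ (Ici 0) φ) (hmono : MonotoneOn φ (Ici 0))
    {g : ℝ → ℝ} {a b : ℝ} (hab : a < b) (hg : LipschitzOnWith 1 g (Icc a b))
    (hI : |∫ x in a..b, g x| ≤ (b - a) ^ 2 / 2) :
    ∫ x in a..b, φ |g x| ≤ ∫ t in (0 : ℝ)..(b - a), φ t := by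
  have hc := cont_of_convex_mono hφ hmono
  have hgc : ContinuousOn g (Icc a b) := hg.continuousOn
  by_cases hz : ∃ z ∈ Icc a b, g z = 0
  · obtain ⟨z, hz, hgz⟩ := hz
    have hb : ∀ x ∈ Icc a b, φ |g x| ≤ φ |x - z| := by
      intro x hx
      have := hg.dist_le_mul x hx z hz
      rw [Real.dist_eq, Real.dist_eq, hgz] at this
      simp only [NNReal.coe_one, one_mul, sub_zero] at this
      exact hmono (mem_Ici.2 (abs_nonneg _)) (mem_Ici.2 (abs_nonneg _)) this
    have h1 : ∫ x in a..b, φ |g x| ≤ ∫ x in a..b, φ |x - z| := by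
      apply intervalIntegral.integral_mono_on hab.le
      · apply ContinuousOn.intervalIntegrable
        rw [uIcc_of_le hab.le]
        exact hc.comp (continuous_abs.comp_continuousOn hgc) (fun x _ => mem_Ici.2 (abs_nonneg _))
      · apply Continuous.intervalIntegrable
        exact hc.comp_continuous (by fun_prop) (fun x => mem_Ici.2 (abs_nonneg _))
      · exact hb
    rw [integral_abs_sub hc hz.1 hz.2] at h1
    have h2 := superadd hmono hc (show 0 ≤ z - a by linarith [hz.1])
      (show 0 ≤ b - z by linarith [hz.2])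
    have e : z - a + (b - z) = b - a := by ring
    rw [e] at h2
    linarith
  · push Not at hz
    have hsign : (∀ x ∈ Icc a b, 0 < g x) ∨ (∀ x ∈ Icc a b, g x < 0) := by
      by_contra hcon
      push Not at hcon
      obtain ⟨⟨x, hx, hx'⟩, ⟨y, hy, hy'⟩⟩ := hcon
      have := isPreconnected_Icc.intermediate_value hx hy hgc
      obtain ⟨z, hz1, hz2⟩ := this ⟨hx', hy'⟩
      exact hz z hz1 hz2
    rcases hsign with h | h
    · have e : ∫ x in a..b, φ |g x| = ∫ x in a..b, φ (g x) := by
        apply intervalIntegral.integral_congr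
        intro x hx
        rw [uIcc_of_le hab.le] at hx
        simp only
        rw [abs_of_pos (h x hx)]
      rw [e]
      exact lip_pos hφ hmono hab hg (fun x hx => (h x hx).le) ((le_abs_self _).trans hI)
    · have e : ∫ x in a..b, φ |g x| = ∫ x in a..b, φ (-g x) := by
        apply intervalIntegral.integral_congr
        intro x hx
        rw [uIcc_of_le hab.le] at hx
        simp only
        rw [abs_of_neg (h x hx)]
      rw [e]
      apply lip_pos (g := fun x => -g x) hφ hmono hab
      · intro x hx y hy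
        have := hg hx hy
        simpa [edist_neg_neg] using this
      · intro x hx
        linarith [h x hx]
      · rw [intervalIntegral.integral_neg]
        exact (neg_le_abs _).trans hI

/-! ### Part 2: Rolle's theorem and nodal polynomials -/

/-- One step of Rolle's theorem for several zeros. -/
lemma rolle_step {N : ℕ} {h : ℝ → ℝ} (hh : Continuous h) (z : Fin (N + 1) → ℝ) (hz : StrictMono z)
    (h0 : ∀ i, h (z i) = 0) :
    ∃ w : Fin N → ℝ, StrictMono w ∧ (∀ i, deriv h (w i) = 0) ∧
      ∀ i, z i.castSucc < w i ∧ w i < z i.succ := by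
  have key : ∀ i : Fin N, ∃ c ∈ Ioo (z i.castSucc) (z i.succ), deriv h c = 0 := by
    intro i
    exact exists_deriv_eq_zero (hz (Fin.castSucc_lt_succ)) hh.continuousOn
      (by rw [h0, h0])
  choose w hw hw0 using key
  refine ⟨w, ?_, hw0, fun i => ⟨(hw i).1, (hw i).2⟩⟩
  intro i j hij
  have h1 : w i < z i.succ := (hw i).2
  have h2 : z i.succ ≤ z j.castSucc := hz.monotone (by
    rw [Fin.le_def]
    simp only [Fin.val_succ, Fin.val_castSucc]
    exact hij)
  exact h1.trans_le (h2.trans (hw j).1.le)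

/-- Generalised Rolle: `m+1+r` zeros of `h` in `[A,B]` give `r+1` zeros of the `m`-th derivative. -/
lemma rolle_gen (r m : ℕ) : ∀ (h : ℝ → ℝ), ContDiff ℝ m h → ∀ (A B : ℝ)
    (z : Fin (r + m + 1) → ℝ), StrictMono z → (∀ i, z i ∈ Icc A B) →
    (∀ i, h (z i) = 0) →
    ∃ w : Fin (r + 1) → ℝ, StrictMono w ∧ (∀ i, w i ∈ Icc A B) ∧
      ∀ i, iteratedDeriv m h (w i) = 0 := by
  induction m with
  | zero =>
    intro h _ A B z hz hI h0
    exact ⟨z, hz, hI, fun i => by simp [h0]⟩
  | succ m ih =>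
    intro h hh A B z hz hI h0
    obtain ⟨w, hw, hw0, hwz⟩ := rolle_step (N := r + m + 1) hh.continuous z hz h0
    have hd : ContDiff ℝ m (deriv h) := by
      have : ContDiff ℝ ((m : WithTop ℕ∞) + 1) h := by exact_mod_cast hh
      exact (contDiff_succ_iff_deriv.1 this).2.2
    have hwI : ∀ i, w i ∈ Icc A B := fun i =>
      ⟨(hI _).1.trans (hwz i).1.le, (hwz i).2.le.trans (hI _).2⟩
    obtain ⟨u, hu, huI, hu0⟩ := ih (deriv h) hd A B w hw hwI hw0
    exact ⟨u, hu, huI, fun i => by rw [iteratedDeriv_succ']; exact hu0 i⟩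

/-- The Finset version. -/
lemma rolle_finset (r m : ℕ) (h : ℝ → ℝ) (hh : ContDiff ℝ m h) (Z : Finset ℝ)
    (hZ : Z.card = r + m + 1) {A B : ℝ} (hAB : ∀ z ∈ Z, z ∈ Icc A B) (h0 : ∀ z ∈ Z, h z = 0) :
    ∃ w : Fin (r + 1) → ℝ, StrictMono w ∧ (∀ i, w i ∈ Icc A B) ∧
      ∀ i, iteratedDeriv m h (w i) = 0 :=
  rolle_gen r m h hh A B (Z.orderEmbOfFin hZ) (OrderEmbedding.strictMono _)
    (fun i => hAB _ (Z.orderEmbOfFin_mem hZ i)) (fun i => h0 _ (Z.orderEmbOfFin_mem hZ i))

lemma iteratedDeriv_poly (m : ℕ) (P : Polynomial ℝ) :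
    iteratedDeriv m (fun x => P.eval x) = fun x => ((Polynomial.derivative^[m]) P).eval x := by
  induction m generalizing P with
  | zero => simp
  | succ m ih =>
    rw [iteratedDeriv_succ']
    have : deriv (fun x => P.eval x) = fun x => (Polynomial.derivative P).eval x := by
      ext x; simp
    rw [this, ih, Function.iterate_succ_apply]

lemma poly_contDiff (P : Polynomial ℝ) (n : WithTop ℕ∞) : ContDiff ℝ n (fun x => P.eval x) := by
  have := P.contDiff_aeval (𝕜 := ℝ) n
  simpa using this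

/-- The nodal polynomial of a finset. -/
noncomputable def nod (S : Finset ℝ) : Polynomial ℝ := ∏ s ∈ S, (Polynomial.X - Polynomial.C s)

lemma nod_eval (S : Finset ℝ) (x : ℝ) : (nod S).eval x = ∏ s ∈ S, (x - s) := by
  simp [nod, Polynomial.eval_prod]

lemma nod_monic (S : Finset ℝ) : (nod S).Monic :=
  Polynomial.monic_prod_of_monic _ _ (fun s _ => Polynomial.monic_X_sub_C s)

lemma nod_natDegree (S : Finset ℝ) : (nod S).natDegree = S.card := by
  simp [nod]

/-- The derivative of order `r = |S| - 1` of the nodal polynomial of `S` is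
`(r+1)! (x - mean S)`. -/
lemma nod_top (r : ℕ) (S : Finset ℝ) (hS : S.card = r + 1) (x : ℝ) :
    ((Polynomial.derivative^[r]) (nod S)).eval x =
      ((r + 1).factorial : ℝ) * (x - (∑ s ∈ S, s) / (r + 1)) := by
  have hdeg : ((Polynomial.derivative^[r]) (nod S)).natDegree ≤ 1 := by
    refine (Polynomial.natDegree_iterate_derivative _ r).trans ?_
    rw [nod_natDegree, hS]; omega
  have e := Polynomial.eq_X_add_C_of_natDegree_le_one hdeg
  have hfac : ((r + 1).factorial : ℝ) = (r + 1) * (r.factorial : ℝ) := by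
    rw [Nat.factorial_succ]; push_cast; ring
  have c1 : ((Polynomial.derivative^[r]) (nod S)).coeff 1 = ((r + 1).factorial : ℝ) := by
    rw [Polynomial.coeff_iterate_derivative]
    have h1 : (1 + r).descFactorial r = (r + 1).factorial := by
      rw [add_comm 1 r]
      have := Nat.factorial_mul_descFactorial (n := r + 1) (k := r) (by omega)
      simpa using this
    have h2 : (nod S).coeff (1 + r) = 1 := by
      have := (nod_monic S).coeff_natDegree
      rwa [nod_natDegree, hS, add_comm] at this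
    rw [h1, h2]; simp
  have c0 : ((Polynomial.derivative^[r]) (nod S)).coeff 0 =
      -((r.factorial : ℝ) * ∑ s ∈ S, s) := by
    rw [Polynomial.coeff_iterate_derivative]
    have h1 : (0 + r).descFactorial r = r.factorial := by
      rw [zero_add, Nat.descFactorial_self]
    have h2 : (nod S).coeff (0 + r) = -∑ s ∈ S, s := by
      have := Polynomial.prod_X_sub_C_coeff_card_pred S (fun s : ℝ => s) (by omega)
      rw [hS] at this
      simpa [nod] using this
    rw [h1, h2, nsmul_eq_mul]; ring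
  rw [e]
  simp only [Polynomial.eval_add, Polynomial.eval_mul, Polynomial.eval_C, Polynomial.eval_X]
  rw [c1, c0, hfac]
  have : (r : ℝ) + 1 ≠ 0 := by positivity
  field_simp
  ring

/-- Sum over `t` of the sums of `T` without `t`. -/
lemma sum_erase_means (m : ℕ) (T : Finset ℝ) (hT : T.card = m + 2) :
    ∑ t ∈ T, ((∑ s ∈ T.erase t, s) / ((m : ℝ) + 1)) = ∑ s ∈ T, s := by
  classical
  have h1 : ∀ t ∈ T, (∑ s ∈ T.erase t, s) = (∑ s ∈ T, s) - t := by
    intro t ht
    rw [← Finset.add_sum_erase T (fun s => s) ht]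
    ring
  rw [← Finset.sum_div, Finset.sum_congr rfl h1, Finset.sum_sub_distrib, Finset.sum_const, hT,
    nsmul_eq_mul]
  have : (m : ℝ) + 1 ≠ 0 := by positivity
  push_cast
  field_simp
  ring

/-! ### Part 3: the two-sided estimate for the derivative of order `n - 2` -/

/-- Support line inequality from a monotone derivative. -/
lemma support {Y G : ℝ → ℝ} (hY : ∀ x, HasDerivAt Y (G x) x) (hG : MonotoneOn G (Icc (-1 : ℝ) 1))
    {c x : ℝ} (hc : c ∈ Icc (-1 : ℝ) 1) (hx : x ∈ Icc (-1 : ℝ) 1) :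
    Y c + G c * (x - c) ≤ Y x := by
  rcases lt_trichotomy c x with h | h | h
  · obtain ⟨ξ, hξ, he⟩ := exists_hasDerivAt_eq_slope Y G h
      (fun y _ => (hY y).continuousAt.continuousWithinAt) (fun y _ => hY y)
    have h1 : G c ≤ G ξ := hG hc ⟨hc.1.trans hξ.1.le, hξ.2.le.trans hx.2⟩ hξ.1.le
    rw [he, le_div_iff₀ (sub_pos.2 h)] at h1
    linarith
  · rw [h]; simp
  · obtain ⟨ξ, hξ, he⟩ := exists_hasDerivAt_eq_slope Y G h
      (fun y _ => (hY y).continuousAt.continuousWithinAt) (fun y _ => hY y)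
    have h1 : G ξ ≤ G c := hG ⟨hx.1.trans hξ.1.le, hξ.2.le.trans hc.2⟩ hc hξ.2.le
    rw [he, div_le_iff₀ (sub_pos.2 h)] at h1
    linarith

/-- If `h` vanishes at the `m+2` points of `T ⊆ [-1,1]` and `h^(m+1)` is nondecreasing on
`[-1,1]`, then `h^(m)` is nonpositive at the mean of `T` and nonnegative at `±1`. -/
lemma cone (m : ℕ) (h : ℝ → ℝ) (hh : ContDiff ℝ (m + 1 : ℕ) h)
    (hmon : MonotoneOn (iteratedDeriv (m + 1) h) (Icc (-1 : ℝ) 1)) (T : Finset ℝ)
    (hT : T.card = m + 2) (hTI : ∀ s ∈ T, s ∈ Icc (-1 : ℝ) 1) (hz : ∀ s ∈ T, h s = 0) :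
    iteratedDeriv m h ((∑ s ∈ T, s) / (m + 2)) ≤ 0 ∧ 0 ≤ iteratedDeriv m h (-1) ∧
      0 ≤ iteratedDeriv m h 1 := by
  classical
  set Y := iteratedDeriv m h with hYdef
  set G := iteratedDeriv (m + 1) h with hGdef
  have hh' : ContDiff ℝ m h := hh.of_le (by exact_mod_cast Nat.le_succ m)
  have hY : ∀ x, HasDerivAt Y (G x) x := by
    intro x
    have hdiff : Differentiable ℝ (iteratedDeriv m h) :=
      hh.differentiable_iteratedDeriv m (by exact_mod_cast Nat.lt_succ_self m)
    have := (hdiff x).hasDerivAt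
    rw [hGdef, iteratedDeriv_succ]
    exact this
  have hcard : (0 : ℝ) < (m : ℝ) + 2 := by positivity
  set c := (∑ s ∈ T, s) / ((m : ℝ) + 2) with hc
  have hcI : c ∈ Icc (-1 : ℝ) 1 := by
    have h1 : ∑ s ∈ T, (-1 : ℝ) ≤ ∑ s ∈ T, s := Finset.sum_le_sum (fun s hs => (hTI s hs).1)
    have h2 : ∑ s ∈ T, s ≤ ∑ s ∈ T, (1 : ℝ) := Finset.sum_le_sum (fun s hs => (hTI s hs).2)
    rw [Finset.sum_const, hT, nsmul_eq_mul] at h1 h2
    push_cast at h1 h2
    constructor
    · rw [hc, le_div_iff₀ hcard]; linarith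
    · rw [hc, div_le_iff₀ hcard]; linarith
  refine ⟨?_, ?_, ?_⟩
  · -- the mean
    set κ := G c with hκ
    have key : ∀ t ∈ T, Y c ≤ κ * (c - (∑ s ∈ T.erase t, s) / ((m : ℝ) + 1)) := by
      intro t ht
      have hcardE : (T.erase t).card = m + 1 := by
        rw [Finset.card_erase_of_mem ht, hT]; rfl
      set a : ℝ := κ / ((m + 1).factorial : ℝ) with ha
      have hfac : ((m + 1).factorial : ℝ) ≠ 0 := by positivity
      set H : ℝ → ℝ := fun x => h x - (Polynomial.C a * nod (T.erase t)).eval x with hH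
      have hHc : ContDiff ℝ m H := hh'.sub (poly_contDiff _ _)
      have hH0 : ∀ z ∈ T.erase t, H z = 0 := by
        intro z hzE
        simp only [hH, hz z (Finset.mem_of_mem_erase hzE), Polynomial.eval_mul,
          Polynomial.eval_C, nod_eval]
        rw [Finset.prod_eq_zero hzE (sub_self z)]
        ring
      obtain ⟨w, _, hwI, hw0⟩ := rolle_finset 0 m H hHc (T.erase t) (by rw [hcardE]; omega)
        (A := -1) (B := 1) (fun z hzE => hTI z (Finset.mem_of_mem_erase hzE)) hH0
      have hw := hw0 0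
      have hI := hwI 0
      set ξ := w 0 with hξ
      have e1 : iteratedDeriv m H ξ = Y ξ -
          ((Polynomial.derivative^[m]) (Polynomial.C a * nod (T.erase t))).eval ξ := by
        have : iteratedDeriv m H ξ = iteratedDeriv m h ξ - iteratedDeriv m
            (fun x => (Polynomial.C a * nod (T.erase t)).eval x) ξ :=
          iteratedDeriv_fun_sub hh'.contDiffAt (poly_contDiff _ _).contDiffAt
        rw [this, iteratedDeriv_poly]
      rw [e1, Polynomial.iterate_derivative_C_mul, Polynomial.eval_mul, Polynomial.eval_C,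
        nod_top m (T.erase t) hcardE] at hw
      have e2 : Y ξ = κ * (ξ - (∑ s ∈ T.erase t, s) / ((m : ℝ) + 1)) := by
        have : a * (((m + 1).factorial : ℝ) * (ξ - (∑ s ∈ T.erase t, s) / ((m : ℝ) + 1))) =
            κ * (ξ - (∑ s ∈ T.erase t, s) / ((m : ℝ) + 1)) := by
          rw [ha]; field_simp
        linarith
      have e3 := support hY hmon hcI hI
      rw [e2, ← hκ] at e3
      have : κ * (c - (∑ s ∈ T.erase t, s) / ((m : ℝ) + 1)) =
        κ * (ξ - (∑ s ∈ T.erase t, s) / ((m : ℝ) + 1)) - κ * (ξ - c) := by ring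
      linarith
    have hsum := Finset.sum_le_sum key
    rw [← Finset.mul_sum, Finset.sum_sub_distrib, sum_erase_means m T hT, Finset.sum_const,
      Finset.sum_const, hT, nsmul_eq_mul, nsmul_eq_mul] at hsum
    push_cast at hsum
    have e4 : ((m : ℝ) + 2) * c - ∑ s ∈ T, s = 0 := by
      rw [hc]; field_simp; ring
    rw [e4, mul_zero] at hsum
    by_contra hcon
    push Not at hcon
    have := mul_pos hcard hcon
    linarith
  · obtain ⟨w, hwm, hwI, hw0⟩ := rolle_finset 1 m h hh' T (by rw [hT]; omega)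
      (A := -1) (B := 1) hTI hz
    have hlt : w 0 < w 1 := hwm (by simp)
    have hw0 : ∀ i, Y (w i) = 0 := hw0
    have g0 := support hY hmon (hwI 0) (hwI 1)
    rw [hw0 0, hw0 1] at g0
    have g1 : G (w 0) ≤ 0 := by
      by_contra hcon
      push Not at hcon
      have := mul_pos hcon (sub_pos.2 hlt)
      linarith
    have g2 := support hY hmon (hwI 0) (show (-1 : ℝ) ∈ Icc (-1 : ℝ) 1 by simp)
    rw [hw0 0] at g2
    have g3 : 0 ≤ G (w 0) * (-1 - w 0) := mul_nonneg_of_nonpos_of_nonpos g1
      (by linarith [(hwI 0).1])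
    linarith
  · obtain ⟨w, hwm, hwI, hw0⟩ := rolle_finset 1 m h hh' T (by rw [hT]; omega)
      (A := -1) (B := 1) hTI hz
    have hlt : w 0 < w 1 := hwm (by simp)
    have hw0 : ∀ i, Y (w i) = 0 := hw0
    have g0 := support hY hmon (hwI 1) (hwI 0)
    rw [hw0 0, hw0 1] at g0
    have g1 : 0 ≤ G (w 1) := by
      by_contra hcon
      push Not at hcon
      have := mul_pos_of_neg_of_neg hcon (sub_neg.2 hlt)
      linarith
    have g2 := support hY hmon (hwI 1) (show (1 : ℝ) ∈ Icc (-1 : ℝ) 1 by simp)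
    rw [hw0 1] at g2
    have g3 : 0 ≤ G (w 1) * (1 - w 1) := mul_nonneg g1 (by linarith [(hwI 1).2])
    linarith

/-- The normalised nodal function. -/
noncomputable def Om (T : Finset ℝ) (x : ℝ) : ℝ := (∏ s ∈ T, (x - s)) / (T.card.factorial : ℝ)

lemma Om_poly (T : Finset ℝ) :
    Om T = fun x => (Polynomial.C (1 / (T.card.factorial : ℝ)) * nod T).eval x := by
  ext x
  simp [Om, nod_eval, div_eq_mul_inv, mul_comm]

lemma Om_top (m : ℕ) (T : Finset ℝ) (hT : T.card = m + 2) (x : ℝ) :
    iteratedDeriv (m + 1) (Om T) x = x - (∑ s ∈ T, s) / (m + 2) := by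
  rw [Om_poly, iteratedDeriv_poly]
  simp only
  rw [Polynomial.iterate_derivative_C_mul, Polynomial.eval_mul, Polynomial.eval_C,
    nod_top (m + 1) T (by rw [hT]), hT]
  have : ((m + 2).factorial : ℝ) ≠ 0 := by positivity
  push_cast
  field_simp
  ring_nf

/-- The two integral bounds. -/
lemma bounds (m : ℕ) (f : ℝ → ℝ) (hf : ContDiff ℝ (m + 1 : ℕ) f)
    (hL : LipschitzOnWith 1 (iteratedDeriv (m + 1) f) (Icc (-1 : ℝ) 1)) (T : Finset ℝ)
    (hT : T.card = m + 2) (hTI : ∀ s ∈ T, s ∈ Icc (-1 : ℝ) 1) (hz : ∀ s ∈ T, f s = 0)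
    {c : ℝ} (hc : c = (∑ s ∈ T, s) / (m + 2)) :
    |∫ x in (-1 : ℝ)..c, iteratedDeriv (m + 1) f x| ≤ (c - -1) ^ 2 / 2 ∧
      |∫ x in c..1, iteratedDeriv (m + 1) f x| ≤ (1 - c) ^ 2 / 2 := by
  classical
  -- the primitives
  have hder : ∀ (F : ℝ → ℝ), ContDiff ℝ (m + 1 : ℕ) F → ∀ a b : ℝ,
      ∫ x in a..b, iteratedDeriv (m + 1) F x = iteratedDeriv m F b - iteratedDeriv m F a := by
    intro F hF a b
    apply intervalIntegral.integral_eq_sub_of_hasDerivAt
    · intro x _
      have hdiff : Differentiable ℝ (iteratedDeriv m F) :=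
        hF.differentiable_iteratedDeriv m (by exact_mod_cast Nat.lt_succ_self m)
      have := (hdiff x).hasDerivAt
      rw [iteratedDeriv_succ]
      exact this
    · apply Continuous.intervalIntegrable
      exact hF.continuous_iteratedDeriv (m + 1) le_rfl
  have hOmc : ContDiff ℝ (m + 1 : ℕ) (Om T) := by
    rw [Om_poly]; exact poly_contDiff _ _
  have hOmz : ∀ s ∈ T, Om T s = 0 := by
    intro s hs
    unfold Om
    rw [Finset.prod_eq_zero hs (sub_self s), zero_div]
  -- the cone property for both signs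
  have hσ : ∀ σ : ℝ, (σ = 1 ∨ σ = -1) →
      iteratedDeriv m (Om T) c + σ * iteratedDeriv m f c ≤ 0 ∧
      0 ≤ iteratedDeriv m (Om T) (-1) + σ * iteratedDeriv m f (-1) ∧
      0 ≤ iteratedDeriv m (Om T) 1 + σ * iteratedDeriv m f 1 := by
    intro σ hσ
    set h : ℝ → ℝ := fun x => Om T x + σ * f x with hh
    have hhc : ContDiff ℝ (m + 1 : ℕ) h := hOmc.add (contDiff_const.mul hf)
    have hit : ∀ j : ℕ, j ≤ m + 1 → ∀ x, iteratedDeriv j h x =
        iteratedDeriv j (Om T) x + σ * iteratedDeriv j f x := by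
      intro j hj x
      have hjf : ContDiff ℝ j f := hf.of_le (by exact_mod_cast hj)
      have hjO : ContDiff ℝ j (Om T) := hOmc.of_le (by exact_mod_cast hj)
      have e1 : iteratedDeriv j h x = iteratedDeriv j (Om T) x +
          iteratedDeriv j (fun x => σ * f x) x :=
        iteratedDeriv_fun_add hjO.contDiffAt (contDiff_const.mul hjf).contDiffAt
      rw [e1, iteratedDeriv_const_mul_field]
    have hmon : MonotoneOn (iteratedDeriv (m + 1) h) (Icc (-1 : ℝ) 1) := by
      intro x hx y hy hxy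
      rw [hit (m + 1) le_rfl, hit (m + 1) le_rfl, Om_top m T hT, Om_top m T hT]
      have := hL.dist_le_mul x hx y hy
      rw [Real.dist_eq, Real.dist_eq] at this
      simp only [NNReal.coe_one, one_mul] at this
      rw [abs_sub_comm x y, abs_of_nonneg (sub_nonneg.2 hxy)] at this
      have h2 := abs_le.1 this
      rcases hσ with rfl | rfl
      · linarith [h2.2]
      · linarith [h2.1]
    have := cone m h hhc hmon T hT hTI (fun s hs => by simp [hh, hOmz s hs, hz s hs])
    rw [← hc, hit m (Nat.le_succ m), hit m (Nat.le_succ m), hit m (Nat.le_succ m)] at this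
    exact this
  obtain ⟨p1, p2, p3⟩ := hσ 1 (Or.inl rfl)
  obtain ⟨q1, q2, q3⟩ := hσ (-1) (Or.inr rfl)
  have hO : ∀ a b : ℝ, iteratedDeriv m (Om T) b - iteratedDeriv m (Om T) a =
      ((b - c) ^ 2 - (a - c) ^ 2) / 2 := by
    intro a b
    rw [← hder (Om T) hOmc a b]
    have : ∫ x in a..b, iteratedDeriv (m + 1) (Om T) x = ∫ x in a..b, (x - c) := by
      apply intervalIntegral.integral_congr
      intro x _
      simp only
      rw [Om_top m T hT, hc]
    rw [this, intervalIntegral.integral_sub (by simp) (by simp), integral_id]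
    simp
    ring
  have o1 := hO (-1) c
  have o2 := hO c 1
  rw [hder f hf, hder f hf]
  constructor
  · rw [abs_le]
    constructor <;> nlinarith
  · rw [abs_le]
    constructor <;> nlinarith

/-- **The derivative of order `n - 1`, all node sets, all convex gauges.** Let `n ≥ 2`, let
`x_1, ..., x_n` be distinct nodes in `[-1,1]` with mean `c`, and let `f` be `C^{n-1}` with
`f^{(n-1)}` 1-Lipschitz on `[-1,1]`, vanishing at the nodes.  Put `ω(x) = ∏ (x - x_i) / n!`.
Then for every `p ≥ 1` the `L_p` norm of `f^{(n-1)}` on `[-1,1]` is at most that of `ω^{(n-1)}`;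
more precisely, for every convex nondecreasing `φ` on `[0,∞)` the integral of `φ(|f^{(n-1)}|)`
over `[-1,c]`, and also over `[c,1]`, is at most that of `φ(|ω^{(n-1)}|)`. -/
theorem result (n : ℕ) (hn : 2 ≤ n) (xs : Fin n → ℝ) (hinj : Function.Injective xs)
    (hmem : ∀ i, xs i ∈ Set.Icc (-1 : ℝ) 1) (f : ℝ → ℝ)
    (hf : ContDiff ℝ ((n - 1 : ℕ) : WithTop ℕ∞) f)
    (hL : LipschitzOnWith 1 (iteratedDeriv (n - 1) f) (Set.Icc (-1 : ℝ) 1))
    (hz : ∀ i, f (xs i) = 0) :
    (∀ p : ℝ, 1 ≤ p →
      ∫ x in (-1 : ℝ)..1, |iteratedDeriv (n - 1) f x| ^ p ≤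
        ∫ x in (-1 : ℝ)..1,
          |iteratedDeriv (n - 1) (fun y => (∏ i, (y - xs i)) / (n.factorial : ℝ)) x| ^ p) ∧
    (∀ φ : ℝ → ℝ, ConvexOn ℝ (Set.Ici 0) φ → MonotoneOn φ (Set.Ici 0) →
      (∫ x in (-1 : ℝ)..((∑ i, xs i) / n), φ |iteratedDeriv (n - 1) f x| ≤
        ∫ x in (-1 : ℝ)..((∑ i, xs i) / n),
          φ |iteratedDeriv (n - 1) (fun y => (∏ i, (y - xs i)) / (n.factorial : ℝ)) x|) ∧
      ∫ x in ((∑ i, xs i) / n)..1, φ |iteratedDeriv (n - 1) f x| ≤
        ∫ x in ((∑ i, xs i) / n)..1,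
          φ |iteratedDeriv (n - 1) (fun y => (∏ i, (y - xs i)) / (n.factorial : ℝ)) x|) := by
  classical
  obtain ⟨m, rfl⟩ : ∃ m, n = m + 2 := ⟨n - 2, by omega⟩
  have hm1 : m + 2 - 1 = m + 1 := by omega
  rw [hm1] at hf hL ⊢
  set T : Finset ℝ := Finset.univ.image xs with hTdef
  have hT : T.card = m + 2 := by
    rw [hTdef, Finset.card_image_of_injective _ hinj]; simp
  have hOm : (fun y => (∏ i, (y - xs i)) / ((m + 2).factorial : ℝ)) = Om T := by
    ext y
    unfold Om
    rw [hT, hTdef, Finset.prod_image (fun i _ j _ h => hinj h)]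
  have hsum : ∑ i, xs i = ∑ s ∈ T, s := by
    rw [hTdef, Finset.sum_image (fun i _ j _ h => hinj h)]
  have hTI : ∀ s ∈ T, s ∈ Icc (-1 : ℝ) 1 := by
    intro s hs
    rw [hTdef, Finset.mem_image] at hs
    obtain ⟨i, _, rfl⟩ := hs
    exact hmem i
  have hzT : ∀ s ∈ T, f s = 0 := by
    intro s hs
    rw [hTdef, Finset.mem_image] at hs
    obtain ⟨i, _, rfl⟩ := hs
    exact hz i
  rw [hOm, hsum]
  set c := (∑ s ∈ T, s) / ((m + 2 : ℕ) : ℝ) with hc
  have hc' : c = (∑ s ∈ T, s) / ((m : ℝ) + 2) := by rw [hc]; push_cast; rfl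
  -- the mean is an interior point
  have hcard : (0 : ℝ) < (m : ℝ) + 2 := by positivity
  have hcI : -1 < c ∧ c < 1 := by
    have hex1 : ∃ s ∈ T, (-1 : ℝ) < s := by
      by_contra hcon
      push Not at hcon
      have : T ⊆ {-1} := by
        intro s hs
        rw [Finset.mem_singleton]
        exact le_antisymm (hcon s hs) (hTI s hs).1
      have := Finset.card_le_card this
      rw [hT, Finset.card_singleton] at this
      omega
    have hex2 : ∃ s ∈ T, s < (1 : ℝ) := by
      by_contra hcon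
      push Not at hcon
      have : T ⊆ {1} := by
        intro s hs
        rw [Finset.mem_singleton]
        exact le_antisymm (hTI s hs).2 (hcon s hs)
      have := Finset.card_le_card this
      rw [hT, Finset.card_singleton] at this
      omega
    have h1 : ∑ s ∈ T, (-1 : ℝ) < ∑ s ∈ T, s := Finset.sum_lt_sum (fun s hs => (hTI s hs).1) hex1
    have h2 : ∑ s ∈ T, s < ∑ s ∈ T, (1 : ℝ) := Finset.sum_lt_sum (fun s hs => (hTI s hs).2) hex2
    rw [Finset.sum_const, hT, nsmul_eq_mul] at h1 h2
    push_cast at h1 h2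
    rw [hc']
    constructor
    · rw [lt_div_iff₀ hcard]; linarith
    · rw [div_lt_iff₀ hcard]; linarith
  obtain ⟨b1, b2⟩ := bounds m f hf hL T hT hTI hzT hc'
  have local' : ∀ φ : ℝ → ℝ, ConvexOn ℝ (Set.Ici 0) φ → MonotoneOn φ (Set.Ici 0) →
      (∫ x in (-1 : ℝ)..c, φ |iteratedDeriv (m + 1) f x| ≤
        ∫ x in (-1 : ℝ)..c, φ |iteratedDeriv (m + 1) (Om T) x|) ∧
      ∫ x in c..1, φ |iteratedDeriv (m + 1) f x| ≤
        ∫ x in c..1, φ |iteratedDeriv (m + 1) (Om T) x| := by
    intro φ hφ hmono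
    have hcφ := cont_of_convex_mono hφ hmono
    have hO : ∀ a b : ℝ, ∫ x in a..b, φ |iteratedDeriv (m + 1) (Om T) x| =
        ∫ x in a..b, φ |x - c| := by
      intro a b
      apply intervalIntegral.integral_congr
      intro x _
      simp only
      rw [Om_top m T hT, hc']
    rw [hO, hO, integral_abs_sub hcφ hcI.1.le le_rfl, integral_abs_sub hcφ le_rfl hcI.2.le]
    simp only [sub_self, intervalIntegral.integral_same, add_zero, zero_add]
    exact ⟨lip_main hφ hmono hcI.1 (hL.mono (Icc_subset_Icc_right hcI.2.le)) b1,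
      lip_main hφ hmono hcI.2 (hL.mono (Icc_subset_Icc_left hcI.1.le)) b2⟩
  refine ⟨?_, local'⟩
  intro p hp
  have h1 : ConvexOn ℝ (Ici 0) (fun t : ℝ => t ^ p) := convexOn_rpow hp
  have h2 : MonotoneOn (fun t : ℝ => t ^ p) (Ici 0) := fun x hx y _ hxy =>
    Real.rpow_le_rpow hx hxy (by linarith)
  obtain ⟨l1, l2⟩ := local' _ h1 h2
  have hcont : ∀ F : ℝ → ℝ, ContDiff ℝ (m + 1 : ℕ) F →
      Continuous fun x => |iteratedDeriv (m + 1) F x| ^ p := by
    intro F hF
    apply Continuous.rpow_const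
    · exact continuous_abs.comp (hF.continuous_iteratedDeriv (m + 1) le_rfl)
    · intro x
      right
      linarith
  have hOmc : ContDiff ℝ (m + 1 : ℕ) (Om T) := by
    rw [Om_poly]; exact poly_contDiff _ _
  rw [← intervalIntegral.integral_add_adjacent_intervals ((hcont f hf).intervalIntegrable (-1) c)
    ((hcont f hf).intervalIntegrable c 1),
    ← intervalIntegral.integral_add_adjacent_intervals
    ((hcont (Om T) hOmc).intervalIntegrable (-1) c) ((hcont (Om T) hOmc).intervalIntegrable c 1)]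
  exact add_le_add l1 l2

end Pool.Agent.Results.MP_0f1375_an.TopDerivative
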